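import Pool.Agent.Helper37K9.DT.Curve
import Pool.Agent.Helper37K9.SU.Tw1

/-!
The conjugates of the points on a rational normal curve, if the base is not of general type.
-/

set_option autoImplicit false
set_option linter.overlappingInstances false
set_option linter.unusedSectionVars false

open FF Polynomial Pool.Agent.W602.GT Pool.Agent.W603.LV Pool.Agent.Y184.NT Pool.Agent.Helper37K9.RN
open Pool.Agent.Helper11K9.PR Pool.Agent.Helper37K9.SU

namespace Pool.Agent.Helper37K9.DT

section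

variable {L L' K : Type} [Field L] [Field L'] [Field K] [Algebra ℂ L] [Algebra ℂ L'] [Algebra ℂ K]
  [Algebra L L'] [Algebra L K] [IsScalarTower ℂ L L'] [IsScalarTower ℂ L K]
  [FiniteDimensional L K] [hessK : Algebra.EssFiniteType ℂ K] {n N m s e d : ℕ} {x : Fin N → K}

/-- **The number of the conjugates.** -/
theorem big_of (hK : Algebra.trdeg ℂ K = n) {i0 : Fin N} (hi0 : x i0 = 1)
    (hgen : IntermediateField.adjoin ℂ (Set.range x) = ⊤)
    {ω : (Fin n → Derivation ℂ K K) → K} (hω : IsPluri 1 ω) (hω0 : ∃ D, ω D ≠ 0)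
    (hreg : ∀ (f : Fin m → Fin N) (P : Place ℂ K), Divisorial n P →
      RegAt P (fun D => (∏ k, x (f k)) * ω D))
    (hkod : ¬ KodGe ℂ L n (fun _ => False) n) (hs : 1 ≤ s) (he : e = if s = 1 then 1 else 2)
    {w : Fin (s + 1) → Fin N → L'} (hw : LinearIndependent L' w)
    {G : MvPolynomial (Fin N) ℂ} (hG : G.IsHomogeneous d) (hGx : MvPolynomial.aeval x G = 0)
    (hGw : MvPolynomial.aeval (crv w) G ≠ 0) : Big L L' K x w (s * m + 1 - e * s) := by
  classical
  intro K'' _ _ _ _ _ _ _ _ ψ hψ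
  obtain ⟨K0, hK0⟩ : ∃ K0 : IntermediateField L K'',
    K0 = IntermediateField.adjoin L (Set.range fun i => ψ (x i)) := ⟨_, rfl⟩
  rw [← hK0]
  have hxK0 : ∀ i, ψ (x i) ∈ K0 := fun i => by
    rw [hK0]
    exact IntermediateField.subset_adjoin L _ ⟨i, rfl⟩
  have hψK0 : ∀ y, ψ y ∈ K0 := by
    intro y
    have h1 : y ∈ IntermediateField.adjoin ℂ (Set.range x) := by
      rw [hgen]
      trivial
    have h2 : IntermediateField.adjoin ℂ (Set.range x) ≤ (K0.restrictScalars ℂ).comap ψ := by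
      rw [IntermediateField.adjoin_le_iff]
      rintro _ ⟨i, rfl⟩
      exact hxK0 i
    exact h2 h1
  obtain ⟨ψ0, hψ0⟩ : ∃ ψ0 : K →ₐ[ℂ] K0, ∀ y, (ψ0 y : K'') = ψ y :=
    ⟨AlgHom.codRestrict ψ (K0.restrictScalars ℂ).toSubalgebra hψK0, fun _ => rfl⟩
  let _ : Algebra K K0 := ψ0.toAlgebra
  have hst : IsScalarTower ℂ K K0 := IsScalarTower.of_algebraMap_eq fun c => (ψ0.commutes c).symm
  have hessL : Algebra.EssFiniteType ℂ L := Pool.Agent.TH466.QG.ess_below (K := K)
  have hL : Algebra.trdeg ℂ L = n := Pool.Agent.Y184.NT.trdeg_below (K := K) hK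
  have hstK0 : IsScalarTower ℂ L K0 := inferInstance
  have hess0 : Algebra.EssFiniteType ℂ K0 := Algebra.EssFiniteType.comp ℂ L K0
  have htr0 : Algebra.trdeg ℂ K0 = n := Pool.Agent.Y172.trdeg_up (K := L) hL
  have hfin0 : FiniteDimensional K K0 := Pool.Agent.Helper37K9.CI.finite_of_trdeg hK htr0
  obtain ⟨y, E, h, hE, hh, hT⟩ := exists_trace (M := K) (K := K0) (L := L) hK hω hω0 hreg
  obtain ⟨u, hu⟩ : ∃ u : Fin N → K0, ∀ i, u i = algebraMap K K0 (x i) := ⟨_, fun _ => rfl⟩
  have huc : ∀ i, (u i : K'') = ψ (x i) := fun i => by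
    rw [hu]
    exact hψ0 (x i)
  have hext : ∀ τ : K0 →ₐ[L] AlgebraicClosure K'', ∃ τ' : K'' →ₐ[L] AlgebraicClosure K'',
      ∀ y : K0, τ' (y : K'') = τ y := by
    intro τ
    obtain ⟨τ', hτ'⟩ := IntermediateField.exists_algHom_of_splits (F := L) (E := K'')
      (K := AlgebraicClosure K'') (fun y => ⟨Algebra.IsIntegral.isIntegral y,
        IsAlgClosed.splits _⟩) τ
    exact ⟨τ', fun y => DFunLike.congr_fun hτ' y⟩
  have hgen0 : IntermediateField.adjoin L (Set.range u) = ⊤ := by
    apply IntermediateField.lift_injective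
    rw [IntermediateField.lift_adjoin, IntermediateField.lift_top]
    have h1 : Subtype.val '' Set.range u = Set.range fun i => ψ (x i) := by
      ext z
      constructor
      · rintro ⟨_, ⟨i, rfl⟩, rfl⟩
        exact ⟨i, (huc i).symm⟩
      · rintro ⟨i, rfl⟩
        exact ⟨u i, ⟨i, rfl⟩, huc i⟩
    rw [h1]
    exact hK0.symm
  have hutr : (n : Cardinal) ≤ Algebra.trdeg ℂ (IntermediateField.adjoin ℂ (Set.range u)) := by
    have h1 : ∀ z : K, ψ0 z ∈ IntermediateField.adjoin ℂ (Set.range u) := by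
      intro z
      have h1 : z ∈ IntermediateField.adjoin ℂ (Set.range x) := by
        rw [hgen]
        trivial
      have h2 : IntermediateField.adjoin ℂ (Set.range x) ≤
          (IntermediateField.adjoin ℂ (Set.range u)).comap ψ0 := by
        rw [IntermediateField.adjoin_le_iff]
        rintro _ ⟨i, rfl⟩
        change ψ0 (x i) ∈ IntermediateField.adjoin ℂ (Set.range u)
        have h3 : ψ0 (x i) = u i := (hu i).symm
        rw [h3]
        exact IntermediateField.subset_adjoin ℂ _ ⟨i, rfl⟩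
      exact h2 h1
    rw [← hK]
    exact trdeg_le_of_injective
      (AlgHom.codRestrict ψ0 (IntermediateField.adjoin ℂ (Set.range u)).toSubalgebra h1)
      (RingHom.injective _)
  obtain ⟨iΩ, hiΩ⟩ : ∃ iΩ : L' →+* AlgebraicClosure K'',
    iΩ = algebraMap L' (AlgebraicClosure K'') := ⟨_, rfl⟩
  have hcrv : ∀ i, crv (fun k i => iΩ (w k i)) i = (crv w i).map iΩ := by
    intro i
    rw [crv, crv, Polynomial.map_sum]
    refine Finset.sum_congr rfl fun k _ => ?_
    rw [Polynomial.map_mul, Polynomial.map_C, Polynomial.map_pow, Polynomial.map_X]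
  refine card_lt (Ω0 := AlgebraicClosure K'') (u := u) (h := h) (w := fun k i => iΩ (w k i))
    (i0 := i0) (by rw [hu, hi0, map_one]) hgen0 hE hh (fun f => ?_) hutr hkod hs he
    (ind_ext iΩ hw) (fun j => ?_) hG ?_ ?_
  · have h1 := hT f
    simp only [← hu] at h1
    exact h1
  · obtain ⟨j', hj'⟩ := hext j
    obtain ⟨b, a, hab⟩ := hψ j'
    refine ⟨a, b, fun i => ?_⟩
    rw [← hj', huc, hab, hiΩ]
  · have h1 := MvPolynomial.comp_aeval_apply (φ := ψ0) x G
    rw [hGx, map_zero] at h1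
    have h2 : (fun i => ψ0 (x i)) = u := by
      funext i
      rw [hu]
      rfl
    rw [h2] at h1
    exact h1.symm
  · have h1 : MvPolynomial.aeval (crv fun k i => iΩ (w k i)) G =
        (MvPolynomial.aeval (crv w) G).map iΩ := by
      have hc : ∀ c : ℂ, iΩ (algebraMap ℂ L' c) = algebraMap ℂ (AlgebraicClosure K'') c := by
        intro c
        rw [hiΩ, ← IsScalarTower.algebraMap_apply]
      obtain ⟨φ, hφ⟩ : ∃ φ : L'[X] →ₐ[ℂ] (AlgebraicClosure K'')[X], ∀ p, φ p = p.map iΩ :=
        ⟨{ mapRingHom iΩ with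
            commutes' := fun c => by
              change (C (algebraMap ℂ L' c)).map iΩ = C (algebraMap ℂ (AlgebraicClosure K'') c)
              rw [Polynomial.map_C, hc] }, fun _ => rfl⟩
      have h2 := MvPolynomial.comp_aeval_apply (φ := φ) (crv w) G
      rw [hφ] at h2
      rw [h2]
      have h3 : (crv fun k i => iΩ (w k i)) = fun i => φ (crv w i) := by
        funext i
        rw [hcrv, hφ]
      rw [h3]
    rw [h1]
    exact (Polynomial.map_ne_zero_iff iΩ.injective).2 hGw

end

end Pool.Agent.Helper37K9.DT
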