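import Pool.Agent.Helper37K9.RN.Res

/-!
Curves over an extension field: descent.
-/

set_option autoImplicit false
set_option linter.unusedSectionVars false

open Polynomial Pool.Agent.Helper37K9.RN

namespace Pool.Agent.Helper37K9.DT

section

variable {F J : Type} [Field F] {N s : ℕ} {z : J → Fin N → F}

theorem fun_comb (f : (Fin N → F) →ₗ[F] F) (w : Fin (s + 1) → Fin N → F) (a b : F) :
    f (fun i => a * ∑ k : Fin (s + 1), b ^ (k : ℕ) * w k i) =
      a * ∑ k : Fin (s + 1), b ^ (k : ℕ) * f (w k) := by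
  have h1 : (fun i => a * ∑ k : Fin (s + 1), b ^ (k : ℕ) * w k i) =
      a • ∑ k : Fin (s + 1), b ^ (k : ℕ) • w k := by
    funext i
    rw [Pi.smul_apply, Finset.sum_apply, smul_eq_mul]
    rfl
  rw [h1, map_smul, map_sum, smul_eq_mul]
  congr 1
  exact Finset.sum_congr rfl fun k _ => by rw [map_smul, smul_eq_mul]

/-- the values of a functional at the points of the curve -/
theorem Rnc.fun_eq (D : Rnc F z s) (l : (Fin N → F) →ₗ[F] F) (j : J) :
    l (z j) = D.c j * ∑ k : Fin (s + 1), D.t j ^ (k : ℕ) * l (D.w k) := by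
  have h1 : z j = fun i => D.c j * ∑ k : Fin (s + 1), D.t j ^ (k : ℕ) * D.w k i :=
    funext (D.eq j)
  conv_lhs => rw [h1]
  exact fun_comb l D.w _ _

/-- a quadric which contains `2 s + 1` of the points contains all of them -/
theorem fewQ_of_rnc (D : Rnc F z s) : FewQ F z s := by
  classical
  intro S hS l₁ m₁ l₂ m₂ h0 j
  obtain ⟨P, hP⟩ : ∃ P : ((Fin N → F) →ₗ[F] F) → F[X],
    P = fun l => ∑ k : Fin (s + 1), C (l (D.w k)) * X ^ (k : ℕ) := ⟨_, rfl⟩
  have hPe : ∀ (l : (Fin N → F) →ₗ[F] F) (j : J), l (z j) = D.c j * eval (D.t j) (P l) := by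
    intro l j
    rw [Rnc.fun_eq D l j, hP]
    simp only
    rw [eval_finsetSum]
    congr 1
    refine Finset.sum_congr rfl fun k _ => ?_
    rw [eval_mul, eval_C, eval_pow, eval_X, mul_comm]
  have hdeg : ∀ l, (P l).natDegree ≤ s := by
    intro l
    rw [hP]
    refine natDegree_sum_le_of_forall_le _ _ fun k _ => ?_
    refine (natDegree_C_mul_X_pow_le _ _).trans ?_
    omega
  have hp0 : P l₁ * P m₁ + P l₂ * P m₂ = 0 := by
    refine eq_zero_of_natDegree_lt_card_of_eval_eq_zero' _ (S.image D.t) (fun t ht => ?_) ?_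
    · obtain ⟨i, hi, rfl⟩ := Finset.mem_image.1 ht
      have h1 := h0 i hi
      rw [hPe, hPe, hPe, hPe] at h1
      have h2 : (D.c i * D.c i) * eval (D.t i) (P l₁ * P m₁ + P l₂ * P m₂) = 0 := by
        rw [eval_add, eval_mul, eval_mul]
        linear_combination h1
      exact (mul_eq_zero.1 h2).resolve_left (mul_ne_zero (D.c_ne i) (D.c_ne i))
    · rw [Finset.card_image_of_injective _ D.t_inj, hS]
      have h1 : (P l₁ * P m₁ + P l₂ * P m₂).natDegree ≤ 2 * s := by
        refine natDegree_add_le_of_degree_le ?_ ?_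
        · refine natDegree_mul_le.trans ?_
          have := hdeg l₁
          have := hdeg m₁
          omega
        · refine natDegree_mul_le.trans ?_
          have := hdeg l₂
          have := hdeg m₂
          omega
      omega
  rw [hPe, hPe, hPe, hPe]
  have h3 := congrArg (eval (D.t j)) hp0
  rw [eval_add, eval_mul, eval_mul, eval_zero] at h3
  linear_combination (D.c j * D.c j) * h3

/-- points on a rational normal curve are independent -/
theorem ind_of_rnc (D : Rnc F z s) {S : Finset J} (hS : S.card ≤ s + 1) :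
    LinearIndependent F fun j : S => z j := by
  classical
  obtain ⟨ℓ, hℓ, -⟩ := exists_dual D.ind
  rw [Fintype.linearIndependent_iff]
  intro a ha j
  obtain ⟨p, hp⟩ : ∃ p : F[X], p = ∏ i ∈ S.erase (j : J), (X - C (D.t i)) := ⟨_, rfl⟩
  have hdeg : p.natDegree ≤ s := by
    rw [hp, natDegree_prod_of_monic _ _ fun i _ => monic_X_sub_C _]
    simp only [natDegree_X_sub_C, Finset.sum_const, smul_eq_mul, mul_one]
    rw [Finset.card_erase_of_mem j.2]
    omega
  obtain ⟨f, hf⟩ : ∃ f : (Fin N → F) →ₗ[F] F, f = ∑ k : Fin (s + 1), p.coeff (k : ℕ) • ℓ k :=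
    ⟨_, rfl⟩
  have hfw : ∀ k, f (D.w k) = p.coeff (k : ℕ) := by
    intro k
    rw [hf, LinearMap.sum_apply, Finset.sum_eq_single k]
    · rw [LinearMap.smul_apply, hℓ, if_pos rfl, smul_eq_mul, mul_one]
    · intro k' _ hk'
      rw [LinearMap.smul_apply, hℓ, if_neg hk', smul_zero]
    · intro h
      exact absurd (Finset.mem_univ k) h
  have hfv : ∀ i, f (z i) = D.c i * eval (D.t i) p := by
    intro i
    rw [Rnc.fun_eq D f i, eval_eq_sum_range' (Nat.lt_succ_of_le hdeg), Finset.sum_range]
    congr 1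
    refine Finset.sum_congr rfl fun k _ => ?_
    rw [hfw, mul_comm]
  have h1 := congrArg f ha
  rw [map_sum, map_zero, Finset.sum_eq_single j] at h1
  · rw [map_smul, smul_eq_mul, hfv] at h1
    have h2 : eval (D.t (j : J)) p ≠ 0 := by
      rw [hp, eval_prod]
      refine Finset.prod_ne_zero_iff.2 fun i hi => ?_
      rw [eval_sub, eval_X, eval_C, sub_ne_zero]
      intro h
      exact (Finset.ne_of_mem_erase hi) (D.t_inj h).symm
    exact (mul_eq_zero.1 h1).resolve_right (mul_ne_zero (D.c_ne _) h2)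
  · intro i _ hij
    rw [map_smul, smul_eq_mul, hfv, hp, eval_prod, Finset.prod_eq_zero (i := (i : J))
      (Finset.mem_erase.2 ⟨fun h => hij (Subtype.ext h), i.2⟩), mul_zero, mul_zero]
    rw [eval_sub, eval_X, eval_C, sub_self]
  · intro h
    exact absurd (Finset.mem_univ j) h

/-- a quadric which contains the curve and not the point -/
theorem exists_quad (hs : 1 ≤ s) {w : Fin (s + 1) → Fin N → F} (hw : LinearIndependent F w)
    {v : Fin N → F}
    (hv : ¬ ∃ a b : F, ∀ i, v i = a * ∑ k : Fin (s + 1), b ^ (k : ℕ) * w k i)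
    (hv' : ¬ ∃ a : F, ∀ i, v i = a * w (Fin.last s) i) :
    ∃ l₁ m₁ l₂ m₂ : (Fin N → F) →ₗ[F] F,
      (∀ (a b : F) (p : Fin N → F), (p = fun i => a * ∑ k : Fin (s + 1), b ^ (k : ℕ) * w k i) →
        l₁ p * m₁ p + l₂ p * m₂ p = 0) ∧ l₁ v * m₁ v + l₂ v * m₂ v ≠ 0 := by
  classical
  obtain ⟨ℓ, hℓ, hℓ'⟩ := exists_dual hw
  have hval : ∀ (k : Fin (s + 1)) (a b : F), ℓ k
      (fun i => a * ∑ k : Fin (s + 1), b ^ (k : ℕ) * w k i) = a * b ^ (k : ℕ) := by
    intro k a b
    rw [fun_comb, Finset.sum_eq_single k]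
    · rw [hℓ, if_pos rfl, mul_one]
    · intro k' _ hk'
      rw [hℓ, if_neg (Ne.symm hk'), mul_zero]
    · intro h
      exact absurd (Finset.mem_univ k) h
  by_cases hmem : v ∈ Submodule.span F (Set.range w)
  · have hvs := hℓ' v hmem
    have hnq : ¬ QRel (fun k => ℓ k v) := by
      intro hq
      have hvi : ∀ i, v i = ∑ k, ℓ k v * w k i := by
        intro i
        have h1 := congrFun hvs i
        rw [Finset.sum_apply] at h1
        exact h1
      by_cases h0 : ℓ 0 v = 0
      · apply hv'
        refine ⟨ℓ (Fin.last s) v, fun i => ?_⟩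
        rw [hvi, Finset.sum_eq_single (Fin.last s)]
        · intro k _ hk
          have h2 : (k : ℕ) < s := by
            have h3 : (k : ℕ) ≠ s := fun h4 => hk (Fin.ext h4)
            omega
          have h3 : ℓ k v = 0 := hq.zero h0 k h2
          rw [h3, zero_mul]
        · intro h
          exact absurd (Finset.mem_univ _) h
      · apply hv
        refine ⟨ℓ 0 v, ℓ ⟨1, by omega⟩ v / ℓ 0 v, fun i => ?_⟩
        rw [hvi, Finset.mul_sum]
        refine Finset.sum_congr rfl fun k _ => ?_
        have h3 : ℓ k v = ℓ 0 v * (ℓ ⟨1, by omega⟩ v / ℓ 0 v) ^ (k : ℕ) := hq.pow hs h0 k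
        rw [h3]
        ring
    unfold QRel at hnq
    push Not at hnq
    obtain ⟨i, j, k, l, hijkl, hne⟩ := hnq
    refine ⟨ℓ i, ℓ j, -ℓ k, ℓ l, fun a b p hp => ?_, ?_⟩
    · rw [hp, LinearMap.neg_apply, hval, hval, hval, hval]
      have h1 : a * b ^ (i : ℕ) * (a * b ^ (j : ℕ)) = a * a * b ^ ((i : ℕ) + j) := by ring
      have h2 : -(a * b ^ (k : ℕ)) * (a * b ^ (l : ℕ)) = -(a * a * b ^ ((k : ℕ) + l)) := by ring
      rw [h1, h2, hijkl, add_neg_cancel]
    · rw [LinearMap.neg_apply, neg_mul, ← sub_eq_add_neg]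
      exact sub_ne_zero.2 hne
  · obtain ⟨f, hf1, hf2⟩ := Submodule.exists_le_ker_of_notMem hmem
    have hfw : ∀ k, f (w k) = 0 := fun k => hf2 (Submodule.subset_span ⟨k, rfl⟩)
    refine ⟨f, f, 0, 0, fun a b p hp => ?_, ?_⟩
    · rw [hp, fun_comb, Finset.sum_eq_zero fun k _ => by rw [hfw, mul_zero], mul_zero]
      simp
    · simpa using hf1

end

section

variable {F R J : Type} [Field F] [Field R] {N s : ℕ} {z : J → Fin N → F}

/-- the span of independent vectors contains the vectors which are in a small space over the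
larger field -/
theorem mem_span_of_ext (f : F →+* R) {κ : Type} [Fintype κ] {v : κ → Fin N → F}
    (hv : LinearIndependent F v) {u : Fin N → F} {U : Submodule R (Fin N → R)}
    (hU : Module.finrank R U ≤ Fintype.card κ) (hvU : ∀ k, (fun i => f (v k i)) ∈ U)
    (huU : (fun i => f (u i)) ∈ U) : u ∈ Submodule.span F (Set.range v) := by
  classical
  by_contra h
  have h1 : LinearIndependent F (fun o : Option κ => (Option.casesOn' o u v : Fin N → F)) :=
    linearIndependent_option'.2 ⟨hv, h⟩
  have h2 := ind_ext f h1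
  have h3 : ∀ o : Option κ, (fun i => f ((Option.casesOn' o u v : Fin N → F) i)) ∈ U := by
    rintro (_ | k)
    · exact huU
    · exact hvU k
  have h4 : LinearIndependent R (fun o : Option κ => (⟨_, h3 o⟩ : U)) := by
    refine LinearIndependent.of_comp U.subtype ?_
    exact h2
  have h5 := h4.fintype_card_le_finrank
  rw [Fintype.card_option] at h5
  omega

theorem fewQ_descend (f : F →+* R) (h : FewQ R (fun j i => f (z j i)) s) : FewQ F z s := by
  classical
  intro S hS l₁ m₁ l₂ m₂ h0 j
  obtain ⟨e, he⟩ : ∃ e : ((Fin N → F) →ₗ[F] F) → ((Fin N → R) →ₗ[R] R),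
    ∀ l v, e l (fun i => f (v i)) = f (l v) := by
    refine ⟨fun l => ∑ i, f (l (Pi.single i 1)) • LinearMap.proj i, fun l v => ?_⟩
    rw [LinearMap.sum_apply]
    conv_rhs => rw [← Finset.univ_sum_single v, map_sum, map_sum]
    refine Finset.sum_congr rfl fun i _ => ?_
    have h2 : (Pi.single i (v i) : Fin N → F) = v i • Pi.single i (1 : F) := by
      rw [← Pi.single_smul, smul_eq_mul, mul_one]
    rw [h2, map_smul, smul_eq_mul, map_mul, mul_comm]
    rfl
  have h1 := h S hS (e l₁) (e m₁) (e l₂) (e m₂) (fun j hj => by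
    rw [he, he, he, he, ← map_mul, ← map_mul, ← map_add, h0 j hj, map_zero]) j
  rw [he, he, he, he, ← map_mul, ← map_mul, ← map_add] at h1
  exact (map_eq_zero f).1 h1

theorem ind_descend (f : F →+* R) {κ : Type} [Fintype κ] {v : κ → Fin N → F}
    (h : LinearIndependent R fun k i => f (v k i)) : LinearIndependent F v := by
  rw [Fintype.linearIndependent_iff] at h ⊢
  intro a ha k
  have h1 := h (fun k => f (a k)) (by
    funext i
    have h2 := congrArg f (congrFun ha i)
    rw [Finset.sum_apply, map_sum, Pi.zero_apply, map_zero] at h2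
    rw [Finset.sum_apply, Pi.zero_apply, ← h2]
    refine Finset.sum_congr rfl fun k _ => ?_
    rw [Pi.smul_apply, Pi.smul_apply, smul_eq_mul, smul_eq_mul, map_mul]) k
  exact (map_eq_zero f).1 h1

theorem genPos_descend (f : F →+* R) (D : Rnc R (fun (j : J) i => f (z j i)) s) {S0 : Finset J}
    (hS0 : S0.card = s + 1) : GenPos (F := F) z s := by
  classical
  have h1 : ∀ S : Finset J, S.card = s + 1 → LinearIndependent F fun j : S => z j := by
    intro S hS
    exact ind_descend f (ind_of_rnc D hS.le)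
  refine ⟨h1, ?_⟩
  have h2 : Submodule.span F (Set.range z) = Submodule.span F (Set.range fun j : S0 => z j) := by
    apply le_antisymm
    · rw [Submodule.span_le]
      rintro _ ⟨j, rfl⟩
      have hU : ∀ j, (fun i => f (z j i)) ∈ Submodule.span R (Set.range D.w) := by
        intro j
        have h3 : (fun i => f (z j i)) = ∑ k : Fin (s + 1), (D.c j * D.t j ^ (k : ℕ)) • D.w k := by
          funext i
          rw [D.eq j i, Finset.sum_apply, Finset.mul_sum]
          refine Finset.sum_congr rfl fun k _ => ?_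
          rw [Pi.smul_apply, smul_eq_mul]
          ring
        rw [h3]
        exact Submodule.sum_mem _ fun k _ => Submodule.smul_mem _ _
          (Submodule.subset_span ⟨k, rfl⟩)
      exact mem_span_of_ext f (h1 S0 hS0) (by
        rw [finrank_span_eq_card D.ind, Fintype.card_fin, Fintype.card_coe, hS0])
        (fun k => hU k) (hU j)
    · exact Submodule.span_mono (Set.range_subset_iff.2 fun j => ⟨j, rfl⟩)
  rw [h2, finrank_span_eq_card (h1 S0 hS0), Fintype.card_coe, hS0]

end

end Pool.Agent.Helper37K9.DT
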