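import Pool.Agent.Helper37K9.DT.Str
import Pool.Agent.Helper37K9.DT.Desc
import Pool.Agent.Helper37K9.SU.Fin

/-!
Maps of small degree to varieties which are not of general type: the fibres are on lines.
-/

set_option autoImplicit false
set_option linter.overlappingInstances false
set_option linter.unusedSectionVars false

open FF Polynomial Pool.Agent.W602.GT Pool.Agent.W603.LV Pool.Agent.Y184.NT Pool.Agent.Helper37K9.RN
open Pool.Agent.Helper11K9.PR Pool.Agent.Helper37K9.SU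

namespace Pool.Agent.Helper37K9.DT

/-- relations in terms of products of linear forms -/
theorem rel_of_sum {Ω J : Type} [Field Ω] [Fintype J] {N m : ℕ} {z : J → Fin N → Ω} {c : J → Ω}
    {i0 : Fin N} (h1 : ∀ j, z j i0 = 1) (hinj : Function.Injective z) (hc : ∀ j, c j ≠ 0)
    (hsum : ∀ P : MvPolynomial (Fin N) Ω, P.IsHomogeneous m →
      ∑ j, c j * MvPolynomial.eval (z j) P = 0) : Rel m Finset.univ z c := by
  refine ⟨fun j _ => hc j, fun j _ h0 => ?_,
    fun i _ j _ hij => ind_pair (h1 i) (h1 j) (hinj.ne hij), fun l => ?_⟩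
  · have h2 := h1 j
    rw [h0] at h2
    exact zero_ne_one h2
  · obtain ⟨P, hP, hPe⟩ := prod_lin l
    have h2 := hsum P hP
    simp only [hPe] at h2
    exact h2

section

variable {L K : Type} [Field L] [Field K] [Algebra ℂ L] [Algebra ℂ K] [Algebra L K]
  [IsScalarTower ℂ L K] [FiniteDimensional L K] [hessK : Algebra.EssFiniteType ℂ K]
  {n N m : ℕ}

/-- **The fibres are on lines.** -/
theorem collinear (hNLG : StNLG) {κ : Type} [Fintype κ] [DecidableEq κ]
    {F : κ → MvPolynomial (Fin (N + 1)) ℂ} {d : κ → ℕ} (hd : ∀ k, (F k).IsHomogeneous (d k))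
    (hdim : n + Fintype.card κ = N) (hK : Algebra.trdeg ℂ K = n)
    {x : Fin (N + 1) → K} {i0 : Fin (N + 1)} (hi0 : x i0 = 1)
    (hgen : IntermediateField.adjoin ℂ (Set.range x) = ⊤)
    (hx : ∀ k, MvPolynomial.aeval x (F k) = 0)
    (hgr : LinearIndependent K fun (k : κ) (j : Fin (N + 1)) =>
      MvPolynomial.aeval x (MvPolynomial.pderiv j (F k)))
    {ω : (Fin n → Derivation ℂ K K) → K} (hω : IsPluri 1 ω) (hω0 : ∃ D, ω D ≠ 0)
    (hreg : ∀ (f : Fin m → Fin (N + 1)) (P : Place ℂ K), Divisorial n P →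
      RegAt P (fun D => (∏ k, x (f k)) * ω D))
    (hkod : ¬ KodGe ℂ L n (fun _ => False) n) (hr : 4 * Module.finrank L K ≤ 5 * m + 2)
    (hm : 5 ≤ m) :
    Nonempty (Rnc (AlgebraicClosure L) (pts L (AlgebraicClosure L) x) 1) := by
  classical
  have hcL : CharZero L := charZero_of_injective_algebraMap (algebraMap ℂ L).injective
  have hωr : ∀ P : Place ℂ K, Divisorial n P → RegAt P ω := by
    intro P hP
    have h1 := hreg (fun _ => i0) P hP
    simp only [hi0, Finset.prod_const_one, one_mul] at h1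
    exact h1
  have hr2 : 2 ≤ Module.finrank L K := two_le hK hi0 hgen hω hω0 hreg hkod (by omega)
  have hcard : Fintype.card (K →ₐ[L] AlgebraicClosure L) = Module.finrank L K := AlgHom.card L K _
  have hgenL := gen_up (L := L) hgen
  obtain ⟨σ1, σ2, h12⟩ : ∃ σ τ : K →ₐ[L] AlgebraicClosure L, σ ≠ τ :=
    Fintype.one_lt_card_iff.1 (by omega)
  have hpt1 : ∀ σ : K →ₐ[L] AlgebraicClosure L, pts L (AlgebraicClosure L) x σ i0 = 1 := by
    intro σ
    change σ (x i0) = 1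
    rw [hi0, map_one]
  have hpinj : Function.Injective (pts L (AlgebraicClosure L) x) := by
    intro σ τ h
    by_contra hne
    exact pts_ne hgenL hne h
  have hind : ∀ σ τ : K →ₐ[L] AlgebraicClosure L, σ ≠ τ → LinearIndependent (AlgebraicClosure L)
      ![pts L (AlgebraicClosure L) x σ, pts L (AlgebraicClosure L) x τ] :=
    fun σ τ h => ind_pair (hpt1 σ) (hpt1 τ) (hpinj.ne h)
  obtain ⟨y, E, h, hE, hh, hT'⟩ := exists_trace (M := K) (K := K) (L := L) hK hω hω0 hreg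
  have hT : ∀ f : Fin m → Fin (N + 1), Rg y 1 (Algebra.trace L K ((∏ k, x (f k)) * h)) := hT'
  by_cases hall : ∀ f : Fin m → Fin (N + 1), Algebra.trace L K ((∏ k, x (f k)) * h) = 0
  · obtain ⟨c, hc, hrel⟩ := exists_rel1 (L := L) (Ω0 := AlgebraicClosure L) (u := x) hh hall
    have hR := rel_of_sum (z := pts L (AlgebraicClosure L) x) hpt1 hpinj hc hrel
    obtain ⟨Λ, hΛ, h3⟩ := line_of_cb Pool.Agent.Y153.NT.stCB hR (Finset.mem_univ σ1)
      (Finset.mem_univ σ2) h12 (by rw [Finset.card_univ, hcard]; omega)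
    exact rnc_one hind hΛ (fun σ => h3 σ (Finset.mem_univ σ)) h12
  push Not at hall
  obtain ⟨f0, hf0⟩ := hall
  have hutr : (n : Cardinal) ≤ Algebra.trdeg ℂ (IntermediateField.adjoin ℂ (Set.range x)) := by
    rw [hgen, ← hK]
    exact trdeg_le_of_injective (IntermediateField.topEquiv (F := ℂ) (E := K)).symm.toAlgHom
      (IntermediateField.topEquiv (F := ℂ) (E := K)).symm.injective
  have hnalg : ¬ ∀ i, IsAlgebraic (Nf y) (x i) := fun halg =>
    hkod (kod_of_alg hE hf0 (hT f0) hutr halg)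
  obtain ⟨Ω', iΩ', iA', τ', hτ', hfree'⟩ :=
    Pool.Agent.Helper11K9.MT.exists_tau (Nf y) (AlgebraicClosure L)
  obtain ⟨Ω, iΩ, iAΩ, iC, iZ, τ, hτ, hfree⟩ : ∃ (Ω : Type) (_ : Field Ω)
      (_ : Algebra (AlgebraicClosure L) Ω) (_ : IsAlgClosed Ω) (_ : CharZero Ω)
      (τ : AlgebraicClosure L →+* Ω),
      (∀ a : Nf y, τ (algebraMap (Nf y) (AlgebraicClosure L) a) =
        algebraMap (AlgebraicClosure L) Ω (algebraMap (Nf y) (AlgebraicClosure L) a)) ∧
      ∀ u u' : AlgebraicClosure L, τ u = algebraMap (AlgebraicClosure L) Ω u' →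
        IsAlgebraic (Nf y) u' := by
    refine ⟨AlgebraicClosure Ω', inferInstance, inferInstance, inferInstance,
      charZero_of_injective_algebraMap (algebraMap (AlgebraicClosure L)
        (AlgebraicClosure Ω')).injective, (algebraMap Ω' (AlgebraicClosure Ω')).comp τ',
        fun a => ?_, fun u u' huu => ?_⟩
    · rw [RingHom.comp_apply, hτ', ← IsScalarTower.algebraMap_apply]
    · rw [RingHom.comp_apply, IsScalarTower.algebraMap_apply (AlgebraicClosure L) Ω'
        (AlgebraicClosure Ω')] at huu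
      exact hfree' u u' ((algebraMap Ω' (AlgebraicClosure Ω')).injective huu)
  obtain ⟨ι, hι⟩ : ∃ ι : AlgebraicClosure L →+* Ω, ι = algebraMap (AlgebraicClosure L) Ω :=
    ⟨_, rfl⟩
  obtain ⟨c, c', hc, hc', hrel⟩ := exists_rel2 (L := L) (Ω0 := AlgebraicClosure L) (Ω := Ω)
    (u := x) hh (Nf y) (fun f f' hf' => mem_Nf.2 ⟨1, _, _, hT f, hT f', hf', rfl⟩) τ hτ f0 hf0
  -- the points
  obtain ⟨z, hzl, hzr⟩ : ∃ z : (K →ₐ[L] AlgebraicClosure L) ⊕ (K →ₐ[L] AlgebraicClosure L) →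
      Fin (N + 1) → Ω, (∀ σ, z (Sum.inl σ) = fun i => ι (pts L (AlgebraicClosure L) x σ i)) ∧
      ∀ σ, z (Sum.inr σ) = fun i => τ (pts L (AlgebraicClosure L) x σ i) :=
    ⟨Sum.elim (fun σ i => ι (pts L (AlgebraicClosure L) x σ i))
      (fun σ i => τ (pts L (AlgebraicClosure L) x σ i)), fun _ => rfl, fun _ => rfl⟩
  have hz1 : ∀ j, z j i0 = 1 := by
    rintro (σ | σ)
    · rw [hzl]
      change ι (pts L (AlgebraicClosure L) x σ i0) = 1
      rw [hpt1, map_one]
    · rw [hzr]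
      change τ (pts L (AlgebraicClosure L) x σ i0) = 1
      rw [hpt1, map_one]
  have hne : ∀ (σ σ' : K →ₐ[L] AlgebraicClosure L), z (Sum.inl σ) ≠ z (Sum.inr σ') := by
    intro σ σ' h0
    rw [hzl, hzr] at h0
    refine hnalg (alg_of_eq (Nf y) hfree σ hi0 (v := pts L (AlgebraicClosure L) x σ') (a := 1)
      fun i => ?_)
    rw [one_mul, ← hι]
    exact congrFun h0 i
  have hzinj : Function.Injective z := by
    rintro (σ | σ) (σ' | σ') h0
    · rw [hzl, hzl] at h0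
      rw [hpinj (funext fun i => ι.injective (congrFun h0 i))]
    · exact absurd h0 (hne _ _)
    · exact absurd h0.symm (hne _ _)
    · rw [hzr, hzr] at h0
      rw [hpinj (funext fun i => τ.injective (congrFun h0 i))]
  have hR : Rel m (Finset.univ : Finset ((K →ₐ[L] AlgebraicClosure L) ⊕
      (K →ₐ[L] AlgebraicClosure L))) z (Sum.elim c c') := by
    refine rel_of_sum hz1 hzinj (by rintro (σ | σ); exacts [hc σ, hc' σ]) fun P hP => ?_
    rw [Fintype.sum_sum_type]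
    have h1 := hrel P hP
    simp only [Sum.elim_inl, Sum.elim_inr, hzl, hzr, hι]
    exact h1
  have hcard2 : (Finset.univ : Finset ((K →ₐ[L] AlgebraicClosure L) ⊕
      (K →ₐ[L] AlgebraicClosure L))).card = 2 * Module.finrank L K := by
    rw [Finset.card_univ, Fintype.card_sum, hcard]
    ring
  -- curves through two points of the fibre
  have hnot : ∀ {s : ℕ} (w : Fin (s + 1) → Fin (N + 1) → AlgebraicClosure L)
      (j1 j2 : K →ₐ[L] AlgebraicClosure L), j1 ≠ j2 →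
      (∃ t c : AlgebraicClosure L, c ≠ 0 ∧
        ∀ i, eval t (crv w i) = c * pts L (AlgebraicClosure L) x j1 i) →
      (∃ t c : AlgebraicClosure L, c ≠ 0 ∧
        ∀ i, eval t (crv w i) = c * pts L (AlgebraicClosure L) x j2 i) →
      ∀ σ : K →ₐ[L] AlgebraicClosure L,
        (¬ ∃ a b : Ω, ∀ i, z (Sum.inl σ) i =
          a * ∑ k : Fin (s + 1), b ^ (k : ℕ) * τ (w k i)) ∧
        ¬ ∃ a : Ω, ∀ i, z (Sum.inl σ) i = a * τ (w (Fin.last s) i) := by
    intro s w j1 j2 hj h1 h2 σ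
    obtain ⟨k, hk⟩ : ∃ k, MvPolynomial.aeval (crv w) (F k) ≠ 0 := by
      by_contra hcon
      push Not at hcon
      exact curve_not_in (L := L) hNLG hd hdim hK hi0 hgen hgr hω hω0 hωr (φ := crv w) hj h1 h2
        hcon
    refine ⟨fun ⟨a, b, hab⟩ => hnalg (alg_of_curve (Nf y) hτ hfree σ hi0 (hd k) (hx k) hk
      (a := a) (b := b) fun i => ?_), fun ⟨a, ha⟩ => hnalg (alg_of_eq (Nf y) hfree σ hi0
      (v := w (Fin.last s)) (a := a) fun i => ?_)⟩
    · rw [← hab, hzl, hι]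
      rfl
    · rw [← ha, hzl, hι]
      rfl
  -- lines
  have hline : ∀ Λ : Submodule Ω (Fin (N + 1) → Ω), Module.finrank Ω Λ ≤ 2 →
      ∀ j1 j2 : K →ₐ[L] AlgebraicClosure L, j1 ≠ j2 → z (Sum.inr j1) ∈ Λ → z (Sum.inr j2) ∈ Λ →
      ∀ σ, z (Sum.inl σ) ∉ Λ := by
    intro Λ hΛ j1 j2 hj h1 h2 σ hσ
    obtain ⟨w, hw⟩ : ∃ w : Fin 2 → Fin (N + 1) → AlgebraicClosure L,
      w = ![pts L (AlgebraicClosure L) x j1,
        pts L (AlgebraicClosure L) x j2 - pts L (AlgebraicClosure L) x j1] := ⟨_, rfl⟩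
    have hwi : LinearIndependent (AlgebraicClosure L) w := by
      rw [hw]
      refine LinearIndependent.pair_iff.2 fun a b hab => ?_
      have h3 := LinearIndependent.pair_iff.1 (hind j1 j2 hj) (a - b) b (by
        rw [← hab, smul_sub, sub_smul]
        abel)
      exact ⟨by linear_combination h3.1 + h3.2, h3.2⟩
    have hw0 : w 0 = pts L (AlgebraicClosure L) x j1 := by rw [hw]; rfl
    have hw1 : w 1 = pts L (AlgebraicClosure L) x j2 - pts L (AlgebraicClosure L) x j1 := by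
      rw [hw]
      rfl
    have hwτ : LinearIndependent Ω fun k i => τ (w k i) := ind_ext τ hwi
    have hmem : ∀ k, (fun i => τ (w k i)) ∈ Λ := by
      intro k
      fin_cases k
      · change (fun i => τ (w 0 i)) ∈ Λ
        rw [hw0, ← hzr]
        exact h1
      · change (fun i => τ (w 1 i)) ∈ Λ
        have h3 : (fun i => τ (w 1 i)) = z (Sum.inr j2) - z (Sum.inr j1) := by
          funext i
          rw [hw1, Pi.sub_apply, map_sub, hzr, hzr, Pi.sub_apply]
        rw [h3]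
        exact Λ.sub_mem h2 h1
    have hspan : Submodule.span Ω (Set.range fun (k : Fin 2) i => τ (w k i)) = Λ := by
      apply Submodule.eq_of_le_of_finrank_le
      · rw [Submodule.span_le]
        rintro _ ⟨k, rfl⟩
        exact hmem k
      · rw [finrank_span_eq_card hwτ, Fintype.card_fin]
        exact hΛ
    rw [← hspan] at hσ
    obtain ⟨g, hg⟩ := (Submodule.mem_span_range_iff_exists_fun Ω).1 hσ
    have hgi : ∀ i, z (Sum.inl σ) i = g 0 * τ (w 0 i) + g 1 * τ (w 1 i) := by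
      intro i
      have h3 := congrFun hg i
      rw [Fin.sum_univ_two] at h3
      exact h3.symm
    have hcr : ∀ t i, eval t (crv w i) = w 0 i + t * w 1 i := by
      intro t i
      rw [eval_crv, Fin.sum_univ_two]
      simp
    have h4 := hnot (s := 1) w j1 j2 hj
      ⟨0, 1, one_ne_zero, fun i => by rw [hcr, hw0, zero_mul, add_zero, one_mul]⟩
      ⟨1, 1, one_ne_zero, fun i => by
        rw [hcr, hw0, hw1, Pi.sub_apply]
        ring⟩ σ
    by_cases hg0 : g 0 = 0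
    · refine h4.2 ⟨g 1, fun i => ?_⟩
      rw [hgi, hg0, zero_mul, zero_add]
      rfl
    · refine h4.1 ⟨g 0, g 1 / g 0, fun i => ?_⟩
      rw [hgi, Fin.sum_univ_two]
      simp only [Fin.val_zero, Fin.val_one, pow_zero, pow_one, one_mul]
      rw [mul_add, ← mul_assoc, mul_div_cancel₀ _ hg0]
  -- collinear points
  have hcol : ∀ Λ : Submodule Ω (Fin (N + 1) → Ω), Module.finrank Ω Λ ≤ 2 →
      (∀ σ, z (Sum.inl σ) ∈ Λ) →
      Nonempty (Rnc (AlgebraicClosure L) (pts L (AlgebraicClosure L) x) 1) := by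
    intro Λ hΛ h3
    refine rnc_one hind (Λ := Submodule.span (AlgebraicClosure L) (Set.range
      ![pts L (AlgebraicClosure L) x σ1, pts L (AlgebraicClosure L) x σ2])) ?_ (fun σ => ?_) h12
    · rw [finrank_span_eq_card (hind σ1 σ2 h12), Fintype.card_fin]
    · refine mem_span_of_ext ι (hind σ1 σ2 h12) (by rw [Fintype.card_fin]; exact hΛ)
        (fun k => ?_) (by rw [← hzl]; exact h3 σ)
      fin_cases k
      · change (fun i => ι (pts L (AlgebraicClosure L) x σ1 i)) ∈ Λ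
        rw [← hzl]
        exact h3 σ1
      · change (fun i => ι (pts L (AlgebraicClosure L) x σ2 i)) ∈ Λ
        rw [← hzl]
        exact h3 σ2
  -- small degree
  by_cases hsm : 2 * Module.finrank L K ≤ 2 * m + 1
  · exfalso
    obtain ⟨Λ, hΛ, h3⟩ := line_of_cb Pool.Agent.Y153.NT.stCB hR (Finset.mem_univ (Sum.inl σ1))
      (Finset.mem_univ (Sum.inl σ2)) (fun h => h12 (Sum.inl_injective h))
      (by rw [hcard2]; exact hsm)
    exact hline Λ hΛ σ1 σ2 h12 (h3 _ (Finset.mem_univ _)) (h3 _ (Finset.mem_univ _)) σ1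
      (h3 _ (Finset.mem_univ _))
  have hr6 : 6 ≤ Module.finrank L K := by omega
  -- two lines
  have htwo : ∀ Λ₁ Λ₂ : Submodule Ω (Fin (N + 1) → Ω), Module.finrank Ω Λ₁ ≤ 2 →
      Module.finrank Ω Λ₂ ≤ 2 → (∀ j, z j ∈ Λ₁ ∨ z j ∈ Λ₂) →
      Nonempty (Rnc (AlgebraicClosure L) (pts L (AlgebraicClosure L) x) 1) := by
    intro Λ₁ Λ₂ hΛ₁ hΛ₂ h3
    by_cases h4 : ∃ j1 j2 : K →ₐ[L] AlgebraicClosure L, j1 ≠ j2 ∧
        z (Sum.inr j1) ∈ Λ₁ ∧ z (Sum.inr j2) ∈ Λ₁
    · obtain ⟨j1, j2, hj, hj1, hj2⟩ := h4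
      exact hcol Λ₂ hΛ₂ fun σ => (h3 _).resolve_left (hline Λ₁ hΛ₁ j1 j2 hj hj1 hj2 σ)
    · push Not at h4
      obtain ⟨j1, j2, hj, hj1, hj2⟩ : ∃ j1 j2 : K →ₐ[L] AlgebraicClosure L, j1 ≠ j2 ∧
          z (Sum.inr j1) ∈ Λ₂ ∧ z (Sum.inr j2) ∈ Λ₂ := by
        have h5 : 2 < (Finset.univ : Finset (K →ₐ[L] AlgebraicClosure L)).card := by
          rw [Finset.card_univ, hcard]
          omega
        obtain ⟨a, b, e, -, -, -, hab, hae, hbe⟩ := Finset.two_lt_card_iff.1 h5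
        rcases h3 (Sum.inr a) with ha | ha <;> rcases h3 (Sum.inr b) with hb | hb <;>
          rcases h3 (Sum.inr e) with he | he
        · exact absurd hb (h4 a b hab ha)
        · exact absurd hb (h4 a b hab ha)
        · exact absurd he (h4 a e hae ha)
        · exact ⟨b, e, hbe, hb, he⟩
        · exact absurd he (h4 b e hbe hb)
        · exact ⟨a, e, hae, ha, he⟩
        · exact ⟨a, b, hab, ha, hb⟩
        · exact ⟨a, b, hab, ha, hb⟩
      exact hcol Λ₁ hΛ₁ fun σ => (h3 _).resolve_right (hline Λ₂ hΛ₂ j1 j2 hj hj1 hj2 σ)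
  have hinfΩ : Infinite Ω := IsAlgClosed.instInfinite
  rcases stSpace Ω (N + 1) _ m Finset.univ z (Sum.elim c c')
    ⟨Sum.inl σ1, Finset.mem_univ _⟩ hR (by rw [hcard2]; omega) with
    ⟨Λ₁, Λ₂, hΛ₁, hΛ₂, h3⟩ | ⟨U, hU, h3⟩
  · exact htwo Λ₁ Λ₂ hΛ₁ hΛ₂ fun σ => h3 σ (Finset.mem_univ σ)
  by_cases hU2 : Module.finrank Ω U ≤ 2
  · exact hcol U hU2 fun σ => h3 _ (Finset.mem_univ _)
  rcases plane_case stPlane stConic (fun σ => Finset.mem_univ σ) hR
    ⟨Sum.inl σ1, Finset.mem_univ _⟩ (by rw [hcard2]; omega) (U := U) (by omega)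
    (fun σ => h3 σ (Finset.mem_univ σ)) with ⟨Λ₁, Λ₂, hΛ₁, hΛ₂, h'⟩ | ⟨⟨D⟩⟩
  · exact htwo Λ₁ Λ₂ hΛ₁ hΛ₂ h'
  -- the conic
  exfalso
  let Dl : Rnc Ω (fun (σ : K →ₐ[L] AlgebraicClosure L) i =>
      ι (pts L (AlgebraicClosure L) x σ i)) 2 :=
    { w := D.w
      ind := D.ind
      t := fun σ => D.t (Sum.inl σ)
      c := fun σ => D.c (Sum.inl σ)
      c_ne := fun σ => D.c_ne _
      t_inj := fun σ σ' h => Sum.inl_injective (D.t_inj h)
      eq := fun σ i => by
        rw [← D.eq (Sum.inl σ) i, hzl] }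
  obtain ⟨S0, -, hS0⟩ := Finset.exists_subset_card_eq
    (s := (Finset.univ : Finset (K →ₐ[L] AlgebraicClosure L))) (n := 2 + 1)
    (by rw [Finset.card_univ, hcard]; omega)
  obtain ⟨D0⟩ := exists_rnc (F := AlgebraicClosure L) (z := pts L (AlgebraicClosure L) x) (s := 2)
    (genPos_descend ι Dl hS0) (fewQ_descend ι (fewQ_of_rnc Dl)) (by omega)
    (by rw [hcard]; omega) (by rw [hcard]; omega) hd
    (fun k σ => by rw [aeval_pts, hx, map_zero]) (fun φ j1 j2 hj h1 h2 => by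
      by_contra hcon
      push Not at hcon
      exact curve_not_in (L := L) hNLG hd hdim hK hi0 hgen hgr hω hω0 hωr hj h1 h2 hcon)
  have h4 := hnot (s := 2) D0.w σ1 σ2 h12
    ⟨_, _, inv_ne_zero (D0.c_ne σ1), D0.eval_crv σ1⟩
    ⟨_, _, inv_ne_zero (D0.c_ne σ2), D0.eval_crv σ2⟩ σ1
  obtain ⟨l₁, m₁, l₂, m₂, hq, hq'⟩ := exists_quad (by omega) (ind_ext τ D0.ind) h4.1 h4.2
  apply hq'
  obtain ⟨S, -, hS⟩ := Finset.exists_subset_card_eq
    (s := (Finset.univ : Finset (K →ₐ[L] AlgebraicClosure L))) (n := 2 * 2 + 1)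
    (by rw [Finset.card_univ, hcard]; omega)
  refine fewQ_of_rnc D (S.map ⟨Sum.inr, Sum.inr_injective⟩) (by rw [Finset.card_map, hS]) l₁ m₁
    l₂ m₂ (fun j hj => ?_) (Sum.inl σ1)
  obtain ⟨σ, hσ, rfl⟩ := Finset.mem_map.1 hj
  refine hq (τ (D0.c σ)) (τ (D0.t σ)) _ ?_
  change z (Sum.inr σ) = _
  rw [hzr]
  funext i
  rw [D0.eq σ i, map_mul, map_sum]
  congr 1
  exact Finset.sum_congr rfl fun k _ => by rw [map_mul, map_pow]

end

end Pool.Agent.Helper37K9.DT
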