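import Pool.Agent.Helper37K9.RN.StB
import Pool.Agent.Helper37K9.RN.MainA
import Pool.Agent.Y184.NT.Dom
import Pool.Agent.Y184.NT.TrForm
import Pool.Agent.Helper11K9.PR.Prim
import Pool.Agent.Helper11K9.MT.Tau

/-!
Traces of canonical forms, and the relation between the points of a fibre and their images under
an independent embedding.
-/

set_option autoImplicit false
set_option linter.overlappingInstances false
set_option linter.unusedSectionVars false

open FF Polynomial Pool.Agent.W602.GT Pool.Agent.W603.LV Pool.Agent.Y184.NT Pool.Agent.Helper37K9.RN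
open Pool.Agent.Helper11K9.PR

namespace Pool.Agent.Helper37K9.DT

/-- the traces of the canonical forms of degree `m` are regular -/
theorem exists_trace {M K L : Type} [Field M] [Field K] [Field L] [Algebra ℂ M]
    [Algebra ℂ K] [Algebra ℂ L] [Algebra M K] [Algebra L K] [IsScalarTower ℂ M K]
    [IsScalarTower ℂ L K] [FiniteDimensional M K] [FiniteDimensional L K]
    [Algebra.EssFiniteType ℂ M] {n N m : ℕ} {x : Fin N → M} (hM : Algebra.trdeg ℂ M = n)
    {ω : (Fin n → Derivation ℂ M M) → M} (hω : IsPluri 1 ω) (hω0 : ∃ D, ω D ≠ 0)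
    (hreg : ∀ (f : Fin m → Fin N) (P : Place ℂ M), Divisorial n P →
      RegAt P (fun D => (∏ k, x (f k)) * ω D)) :
    ∃ (y : Fin n → L) (E : Fin n → Derivation ℂ L L) (h : K),
      (∀ i j, E i (y j) = if i = j then 1 else 0) ∧ h ≠ 0 ∧ ∀ f : Fin m → Fin N,
        Rg y 1 (Algebra.trace L K ((∏ k, algebraMap M K (x (f k))) * h)) := by
  classical
  have hessMK : Algebra.EssFiniteType M K := inferInstance
  have hessK : Algebra.EssFiniteType ℂ K := Algebra.EssFiniteType.comp ℂ M K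
  have hessL : Algebra.EssFiniteType ℂ L := Pool.Agent.TH466.QG.ess_below (K := K)
  have hK : Algebra.trdeg ℂ K = n := Pool.Agent.Y172.trdeg_up (K := M) hM
  have hL : Algebra.trdeg ℂ L = n := trdeg_below (K := K) hK
  obtain ⟨z, EM, hz, hEM⟩ := Pool.Agent.Y172.exists_crd (k := ℂ) (K := M) hM
  choose EK hEK using fun i => Pool.Agent.Y172.exists_lift (k := ℂ) (K := M) (L := K) hM (EM i)
  have hzK : IsTranscendenceBasis ℂ (fun j => algebraMap M K (z j)) := hz.algebraMap_comp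
  have hEKd := Pool.Agent.Y172.lift_dual hEM hEK
  obtain ⟨y, E, hy, hE⟩ := Pool.Agent.Y172.exists_crd (k := ℂ) (K := L) hL
  choose E' hE' using fun i => Pool.Agent.Y172.exists_lift (k := ℂ) (K := L) (L := K) hL (E i)
  have hEind : LinearIndependent K E' := lift_ind hE hE'
  have hωE : ω EM ≠ 0 := by
    intro h0
    obtain ⟨D, hD⟩ := hω0
    apply hD
    rw [Pool.Agent.Y172.pluri_coord hz hEM hω D, h0, mul_zero]
  obtain ⟨W, hWdef⟩ : ∃ W : (Fin m → Fin N) → (Fin n → Derivation ℂ K K) → K,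
    W = fun f => pull z ((∏ k, x (f k)) * ω EM) := ⟨_, rfl⟩
  have hWp : ∀ f, IsPluri 1 (W f) := fun f => by
    rw [hWdef]
    exact pull_pluri _ _
  have hWr : ∀ f (Q : Place ℂ K), Divisorial n Q → RegAt Q (W f) := by
    intro f Q hQ D hD
    rw [hWdef]
    have hp : IsPluri 1 (fun D => (∏ k, x (f k)) * ω D) := by
      intro A D
      change (∏ k, x (f k)) * ω (fun i => ∑ j, A i j • D j) = _
      rw [hω A D]
      ring
    exact Pool.Agent.Y297.NT.t_Pull Pool.Agent.Y71.NT.t_abh M K n n hM hK z hz EM hEM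
      (fun D => (∏ k, x (f k)) * ω D) hp (hreg f) Q hQ D hD
  obtain ⟨h, hhdef⟩ : ∃ h : K, h = pull z (ω EM) E' := ⟨_, rfl⟩
  have hh : h ≠ 0 := by
    rw [hhdef]
    exact mul_ne_zero (minor_ne hzK hEKd hEind) (by simpa using hωE)
  have hWE : ∀ f, W f E' = (∏ k, algebraMap M K (x (f k))) * h := by
    intro f
    rw [hWdef, hhdef]
    simp only [pull]
    rw [map_mul, map_prod]
    ring
  refine ⟨y, E, h, hE, hh, fun f P hP => ?_⟩
  have h1 := trForm_reg hL hy hE hE' (W f) (hWp f) (hWr f) P hP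
  rw [hWE] at h1
  have h2 : pf y 1 (Algebra.trace L K ((∏ k, algebraMap M K (x (f k))) * h)) =
      trForm y (Algebra.trace L K ((∏ k, algebraMap M K (x (f k))) * h)) := by
    funext G
    rw [pf, trForm, pow_one]
  rw [h2]
  exact h1

section

variable {L K Ω0 Ω : Type} [Field L] [Field K] [Field Ω0] [Field Ω] [Algebra ℂ L] [Algebra L K]
  [FiniteDimensional L K] [Algebra L Ω0] [IsAlgClosed Ω0] [Algebra Ω0 Ω] {N m : ℕ}

/-- **The relation between the points and their images.** -/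
theorem exists_rel2 [Algebra.IsSeparable L K] {u : Fin N → K} {h : K} (hh : h ≠ 0)
    (F : IntermediateField ℂ L)
    (hF : ∀ f f0 : Fin m → Fin N, Algebra.trace L K ((∏ k, u (f0 k)) * h) ≠ 0 →
      Algebra.trace L K ((∏ k, u (f k)) * h) / Algebra.trace L K ((∏ k, u (f0 k)) * h) ∈ F)
    (τ : Ω0 →+* Ω) (hτ : ∀ a : F, τ (algebraMap F Ω0 a) = algebraMap Ω0 Ω (algebraMap F Ω0 a))
    (f0 : Fin m → Fin N) (hf0 : Algebra.trace L K ((∏ k, u (f0 k)) * h) ≠ 0) :
    ∃ c c' : (K →ₐ[L] Ω0) → Ω, (∀ j, c j ≠ 0) ∧ (∀ j, c' j ≠ 0) ∧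
      ∀ P : MvPolynomial (Fin N) Ω, P.IsHomogeneous m →
        ∑ j, c j * MvPolynomial.eval (fun i => algebraMap Ω0 Ω (j (u i))) P +
          ∑ j, c' j * MvPolynomial.eval (fun i => τ (j (u i))) P = 0 := by
  classical
  obtain ⟨ι, hι⟩ : ∃ ι : Ω0 →+* Ω, ι = algebraMap Ω0 Ω := ⟨_, rfl⟩
  obtain ⟨T, hT⟩ : ∃ T : (Fin m → Fin N) → Ω0,
    T = fun f => algebraMap L Ω0 (Algebra.trace L K ((∏ k, u (f k)) * h)) := ⟨_, rfl⟩
  have hTsum : ∀ f, T f = ∑ j : K →ₐ[L] Ω0, j h * ∏ k, j (u (f k)) := by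
    intro f
    rw [hT]
    change algebraMap L Ω0 (Algebra.trace L K ((∏ k, u (f k)) * h)) = _
    rw [trace_eq_sum_embeddings Ω0 (K := L) (x := (∏ k, u (f k)) * h)]
    refine Finset.sum_congr rfl fun j _ => ?_
    rw [map_mul, map_prod, mul_comm]
  have hTf0 : T f0 ≠ 0 := by
    rw [hT]
    exact (_root_.map_ne_zero _).2 hf0
  have hTτ : ∀ f, ι (T f) * τ (T f0) = τ (T f) * ι (T f0) := by
    intro f
    obtain ⟨q, hq⟩ : ∃ q : F, (q : L) = Algebra.trace L K ((∏ k, u (f k)) * h) /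
        Algebra.trace L K ((∏ k, u (f0 k)) * h) := ⟨⟨_, hF f f0 hf0⟩, rfl⟩
    have h1 : T f = algebraMap F Ω0 q * T f0 := by
      have h2 : algebraMap F Ω0 q = algebraMap L Ω0 (q : L) := rfl
      rw [h2, hT]
      change algebraMap L Ω0 _ = algebraMap L Ω0 _ * algebraMap L Ω0 _
      rw [← map_mul, hq, div_mul_cancel₀ _ hf0]
    rw [h1, map_mul, map_mul, hτ, hι]
    ring
  refine ⟨fun j => τ (T f0) * ι (j h), fun j => -(ι (T f0) * τ (j h)),
    fun j => mul_ne_zero ((_root_.map_ne_zero τ).2 hTf0) ((_root_.map_ne_zero ι).2 ((_root_.map_ne_zero j).2 hh)),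
    fun j => neg_ne_zero.2 (mul_ne_zero ((_root_.map_ne_zero ι).2 hTf0)
      ((_root_.map_ne_zero τ).2 ((_root_.map_ne_zero j).2 hh))), fun P hP => ?_⟩
  have h1 := relation_of_monomials (J := (K →ₐ[L] Ω0) ⊕ (K →ₐ[L] Ω0))
    (z := Sum.elim (fun j i => algebraMap Ω0 Ω (j (u i))) (fun j i => τ (j (u i))))
    (c := Sum.elim (fun j => τ (T f0) * ι (j h)) (fun j => -(ι (T f0) * τ (j h))))
    (m := m) (fun f => by
      rw [Fintype.sum_sum_type]
      simp only [Sum.elim_inl, Sum.elim_inr]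
      rw [← hι]
      have h2 : ∑ j : K →ₐ[L] Ω0, τ (T f0) * ι (j h) * ∏ k, ι (j (u (f k))) =
          τ (T f0) * ι (T f) := by
        rw [hTsum f, map_sum, Finset.mul_sum]
        refine Finset.sum_congr rfl fun j _ => ?_
        rw [map_mul, map_prod, mul_assoc]
      have h3 : ∑ j : K →ₐ[L] Ω0, -(ι (T f0) * τ (j h)) * ∏ k, τ (j (u (f k))) =
          -(ι (T f0) * τ (T f)) := by
        rw [hTsum f, map_sum, Finset.mul_sum, ← Finset.sum_neg_distrib]
        refine Finset.sum_congr rfl fun j _ => ?_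
        rw [map_mul, map_prod]
        ring
      rw [h2, h3]
      linear_combination hTτ f) hP
  rw [Fintype.sum_sum_type] at h1
  exact h1

/-- the relation between the points, if all the traces vanish -/
theorem exists_rel1 [Algebra.IsSeparable L K] {u : Fin N → K} {h : K} (hh : h ≠ 0)
    (h0 : ∀ f : Fin m → Fin N, Algebra.trace L K ((∏ k, u (f k)) * h) = 0) :
    ∃ c : (K →ₐ[L] Ω0) → Ω0, (∀ j, c j ≠ 0) ∧ ∀ P : MvPolynomial (Fin N) Ω0,
      P.IsHomogeneous m → ∑ j, c j * MvPolynomial.eval (fun i => j (u i)) P = 0 := by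
  classical
  refine ⟨fun j => j h, fun j => (_root_.map_ne_zero j).2 hh, fun P hP =>
    relation_of_monomials (z := fun (j : K →ₐ[L] Ω0) (i : Fin N) => j (u i)) (fun f => ?_) hP⟩
  have h1 := trace_eq_sum_embeddings Ω0 (K := L) (x := (∏ k, u (f k)) * h)
  rw [h0 f, map_zero] at h1
  rw [h1]
  refine Finset.sum_congr rfl fun j _ => ?_
  rw [map_mul, map_prod, mul_comm]

end

section

variable {L K : Type} [Field L] [Field K] [Algebra ℂ L] [Algebra ℂ K] [Algebra L K]
  [IsScalarTower ℂ L K] {n N : ℕ}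

/-- the general type -/
theorem kod_of_alg {y : Fin n → L} {E : Fin n → Derivation ℂ L L}
    (hE : ∀ i j, E i (y j) = if i = j then 1 else 0) {T : L} (hT0 : T ≠ 0) (hT : Rg y 1 T)
    {u : Fin N → K} (hu : (n : Cardinal) ≤ Algebra.trdeg ℂ (IntermediateField.adjoin ℂ (Set.range u)))
    (halg : ∀ i, IsAlgebraic (Nf y) (u i)) : KodGe ℂ L n (fun _ => False) n := by
  obtain ⟨s, hs⟩ := Pool.Agent.Helper37K9.CI.exists_coord u hu
  exact kod_top hE hT0 hT hs fun i => halg (s i)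

end

end Pool.Agent.Helper37K9.DT
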