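import Pool.Agent.Helper37K9.RN.Str
import Pool.Agent.Helper37K9.RN.Res
import Pool.Agent.Helper37K9.SU.Odd
import Pool.Agent.Helper37K9.DT.Trace

/-!
The number of the points of a fibre on a rational normal curve.
-/

set_option autoImplicit false
set_option linter.overlappingInstances false
set_option linter.unusedSectionVars false

open FF Polynomial Pool.Agent.W602.GT Pool.Agent.W603.LV Pool.Agent.Y184.NT Pool.Agent.Helper37K9.RN
open Pool.Agent.Helper11K9.PR

namespace Pool.Agent.Helper37K9.DT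

section

variable {F : Type} [Field F] {N s : ℕ}

theorem fun_crv (f : (Fin N → F) →ₗ[F] F) (w : Fin (s + 1) → Fin N → F) (a b : F) :
    f (fun i => a * ∑ k : Fin (s + 1), b ^ (k : ℕ) * w k i) =
      a * ∑ k : Fin (s + 1), b ^ (k : ℕ) * f (w k) := by
  have h1 : (fun i => a * ∑ k : Fin (s + 1), b ^ (k : ℕ) * w k i) =
      a • ∑ k : Fin (s + 1), b ^ (k : ℕ) • w k := by
    funext i
    rw [Pi.smul_apply, Finset.sum_apply, smul_eq_mul]
    rfl
  rw [h1, map_smul, map_sum, smul_eq_mul]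
  congr 1
  exact Finset.sum_congr rfl fun k _ => by rw [map_smul, smul_eq_mul]

/-- a form which vanishes on the curve and not at the point -/
theorem exists_form {e : ℕ} (hs : 1 ≤ s) (he : e = if s = 1 then 1 else 2)
    {w : Fin (s + 1) → Fin N → F} (hw : LinearIndependent F w) {v : Fin N → F}
    (hv : ¬ ∃ a b : F, ∀ i, v i = a * ∑ k : Fin (s + 1), b ^ (k : ℕ) * w k i)
    (hv' : ¬ ∃ a : F, ∀ i, v i = a * w (Fin.last s) i) :
    ∃ Q : MvPolynomial (Fin N) F, Q.IsHomogeneous e ∧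
      (∀ a b : F, MvPolynomial.eval
        (fun i => a * ∑ k : Fin (s + 1), b ^ (k : ℕ) * w k i) Q = 0) ∧
      MvPolynomial.eval v Q ≠ 0 := by
  classical
  obtain ⟨ℓ, hℓ, hℓ'⟩ := exists_dual hw
  have hval : ∀ (k : Fin (s + 1)) (a b : F), ℓ k
      (fun i => a * ∑ k : Fin (s + 1), b ^ (k : ℕ) * w k i) = a * b ^ (k : ℕ) := by
    intro k a b
    rw [fun_crv, Finset.sum_eq_single k]
    · rw [hℓ, if_pos rfl, mul_one]
    · intro k' _ hk'
      rw [hℓ, if_neg (Ne.symm hk'), mul_zero]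
    · intro h
      exact absurd (Finset.mem_univ k) h
  by_cases hmem : v ∈ Submodule.span F (Set.range w)
  · have hvs := hℓ' v hmem
    have hnq : ¬ QRel (fun k => ℓ k v) := by
      intro hq
      have hvi : ∀ i, v i = ∑ k, ℓ k v * w k i := by
        intro i
        have h1 := congrFun hvs i
        rw [Finset.sum_apply] at h1
        exact h1
      by_cases h0 : ℓ 0 v = 0
      · apply hv'
        refine ⟨ℓ (Fin.last s) v, fun i => ?_⟩
        rw [hvi, Finset.sum_eq_single (Fin.last s)]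
        · intro k _ hk
          have h2 : (k : ℕ) < s := by
            have h3 : (k : ℕ) ≠ s := fun h4 => hk (Fin.ext h4)
            omega
          have h3 : ℓ k v = 0 := hq.zero h0 k h2
          rw [h3, zero_mul]
        · intro h
          exact absurd (Finset.mem_univ _) h
      · apply hv
        refine ⟨ℓ 0 v, ℓ ⟨1, by omega⟩ v / ℓ 0 v, fun i => ?_⟩
        rw [hvi, Finset.mul_sum]
        refine Finset.sum_congr rfl fun k _ => ?_
        have h3 : ℓ k v = ℓ 0 v * (ℓ ⟨1, by omega⟩ v / ℓ 0 v) ^ (k : ℕ) := hq.pow hs h0 k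
        rw [h3]
        ring
    have hs1 : s ≠ 1 := by
      intro hs1
      subst hs1
      apply hnq
      intro i j k l h
      fin_cases i <;> fin_cases j <;> fin_cases k <;> fin_cases l <;>
        first
        | rfl
        | (exfalso; revert h; decide)
        | exact mul_comm _ _
    rw [if_neg hs1] at he
    subst he
    unfold QRel at hnq
    push Not at hnq
    obtain ⟨i, j, k, l, hijkl, hne⟩ := hnq
    refine ⟨linForm (ℓ i) * linForm (ℓ j) - linForm (ℓ k) * linForm (ℓ l),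
      ((linForm_hom _).mul (linForm_hom _)).sub ((linForm_hom _).mul (linForm_hom _)),
      fun a b => ?_, ?_⟩
    · rw [map_sub, map_mul, map_mul, eval_linForm, eval_linForm, eval_linForm, eval_linForm, hval,
        hval, hval, hval]
      have h1 : a * b ^ (i : ℕ) * (a * b ^ (j : ℕ)) = a * a * b ^ ((i : ℕ) + j) := by ring
      have h2 : a * b ^ (k : ℕ) * (a * b ^ (l : ℕ)) = a * a * b ^ ((k : ℕ) + l) := by ring
      rw [h1, h2, hijkl, sub_self]
    · rw [map_sub, map_mul, map_mul, eval_linForm, eval_linForm, eval_linForm, eval_linForm]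
      exact sub_ne_zero.2 hne
  · obtain ⟨f, hf1, hf2⟩ := Submodule.exists_le_ker_of_notMem hmem
    have hfw : ∀ k, f (w k) = 0 := fun k => hf2 (Submodule.subset_span ⟨k, rfl⟩)
    have hfc : ∀ a b : F, f (fun i => a * ∑ k : Fin (s + 1), b ^ (k : ℕ) * w k i) = 0 := by
      intro a b
      rw [fun_crv, Finset.sum_eq_zero fun k _ => by rw [hfw, mul_zero], mul_zero]
    by_cases hs1 : s = 1
    · rw [if_pos hs1] at he
      subst he
      refine ⟨linForm f, linForm_hom f, fun a b => ?_, ?_⟩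
      · rw [eval_linForm, hfc]
      · rw [eval_linForm]
        exact hf1
    · rw [if_neg hs1] at he
      subst he
      refine ⟨linForm f * linForm f, (linForm_hom _).mul (linForm_hom _), fun a b => ?_, ?_⟩
      · rw [map_mul, eval_linForm, hfc, mul_zero]
      · rw [map_mul, eval_linForm]
        exact mul_ne_zero hf1 hf1

/-- one form for finitely many points -/
theorem exists_form_all [Infinite F] {e : ℕ} (hs : 1 ≤ s) (he : e = if s = 1 then 1 else 2)
    {w : Fin (s + 1) → Fin N → F} (hw : LinearIndependent F w) {J : Type} [Finite J]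
    {v : J → Fin N → F}
    (hv : ∀ j, ¬ ∃ a b : F, ∀ i, v j i = a * ∑ k : Fin (s + 1), b ^ (k : ℕ) * w k i)
    (hv' : ∀ j, ¬ ∃ a : F, ∀ i, v j i = a * w (Fin.last s) i) :
    ∃ Q : MvPolynomial (Fin N) F, Q.IsHomogeneous e ∧
      (∀ a b : F, MvPolynomial.eval
        (fun i => a * ∑ k : Fin (s + 1), b ^ (k : ℕ) * w k i) Q = 0) ∧
      ∀ j, MvPolynomial.eval (v j) Q ≠ 0 := by
  classical
  let U : Submodule F (MvPolynomial (Fin N) F) :=
    { carrier := {Q | Q.IsHomogeneous e ∧ ∀ a b : F, MvPolynomial.eval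
        (fun i => a * ∑ k : Fin (s + 1), b ^ (k : ℕ) * w k i) Q = 0}
      add_mem' := fun {Q Q'} hQ hQ' => ⟨hQ.1.add hQ'.1, fun a b => by
        rw [map_add, hQ.2, hQ'.2, add_zero]⟩
      zero_mem' := ⟨MvPolynomial.isHomogeneous_zero _ _ _, fun a b => map_zero _⟩
      smul_mem' := fun c Q hQ => ⟨(MvPolynomial.homogeneousSubmodule (Fin N) F e).smul_mem c hQ.1,
        fun a b => by rw [MvPolynomial.smul_eval, hQ.2, mul_zero]⟩ }
  obtain ⟨Q, hQ, hQ'⟩ := Module.Dual.exists_forall_mem_ne_zero_of_forall_exists U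
    (fun j => (MvPolynomial.aeval (v j) : MvPolynomial (Fin N) F →ₐ[F] F).toLinearMap)
    (fun j => by
      obtain ⟨Q, h1, h2, h3⟩ := exists_form hs he hw (hv j) (hv' j)
      refine ⟨Q, ⟨h1, h2⟩, ?_⟩
      rw [AlgHom.toLinearMap_apply, MvPolynomial.aeval_eq_eval]
      exact h3)
  refine ⟨Q, hQ.1, hQ.2, fun j => ?_⟩
  have h1 := hQ' j
  rw [AlgHom.toLinearMap_apply, MvPolynomial.aeval_eq_eval] at h1
  exact h1

end

section

variable {L K0 Ω0 Ω : Type} [Field L] [Field K0] [Field Ω0] [Field Ω] [Algebra ℂ L] [Algebra ℂ K0]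
  [Algebra ℂ Ω0] [Algebra L K0] [Algebra L Ω0] [IsScalarTower ℂ L K0] [IsScalarTower ℂ L Ω0]
  [FiniteDimensional L K0] [IsAlgClosed Ω0] [Algebra Ω0 Ω] {N s d : ℕ} {u : Fin N → K0}

/-- a point which is proportional to an image is algebraic -/
theorem alg_of_eq (F : IntermediateField ℂ L) {τ : Ω0 →+* Ω}
    (hfree : ∀ a a' : Ω0, τ a = algebraMap Ω0 Ω a' → IsAlgebraic F a') (j : K0 →ₐ[L] Ω0)
    {i0 : Fin N} (hi0 : u i0 = 1) {v : Fin N → Ω0} {a : Ω}
    (h : ∀ i, algebraMap Ω0 Ω (j (u i)) = a * τ (v i)) (i : Fin N) : IsAlgebraic F (u i) := by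
  have h1 := h i0
  rw [hi0, map_one, map_one] at h1
  have h2 : τ (v i0) ≠ 0 := by
    intro h0
    rw [h0, mul_zero] at h1
    exact one_ne_zero h1
  have h3 : τ (v i / v i0) = algebraMap Ω0 Ω (j (u i)) := by
    rw [h, map_div₀, div_eq_iff h2, mul_assoc, mul_comm (τ (v i)), ← mul_assoc, ← h1, one_mul]
  have h4 := hfree _ _ h3
  exact (isAlgebraic_algHom_iff (j.restrictScalars F) j.injective).1 h4

/-- a point on the image of the curve is algebraic -/
theorem alg_of_curve (F : IntermediateField ℂ L) {τ : Ω0 →+* Ω}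
    (hτ : ∀ a : F, τ (algebraMap F Ω0 a) = algebraMap Ω0 Ω (algebraMap F Ω0 a))
    (hfree : ∀ a a' : Ω0, τ a = algebraMap Ω0 Ω a' → IsAlgebraic F a') (j : K0 →ₐ[L] Ω0)
    {i0 : Fin N} (hi0 : u i0 = 1) {w : Fin (s + 1) → Fin N → Ω0}
    {G : MvPolynomial (Fin N) ℂ} (hG : G.IsHomogeneous d) (hGu : MvPolynomial.aeval u G = 0)
    (hGw : MvPolynomial.aeval (crv w) G ≠ 0) {a b : Ω}
    (h : ∀ i, algebraMap Ω0 Ω (j (u i)) = a * ∑ k : Fin (s + 1), b ^ (k : ℕ) * τ (w k i))
    (i : Fin N) : IsAlgebraic F (u i) := by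
  classical
  let _ : Algebra ℂ Ω := ((algebraMap Ω0 Ω).comp (algebraMap ℂ Ω0)).toAlgebra
  have hmap : ∀ c : ℂ, algebraMap ℂ Ω c = algebraMap Ω0 Ω (algebraMap ℂ Ω0 c) := fun _ => rfl
  -- the value of the form
  obtain ⟨φ, hφ⟩ : ∃ φ : Ω0[X] →ₐ[ℂ] Ω, ∀ p, φ p = eval₂ τ b p :=
    ⟨{ eval₂RingHom τ b with
        commutes' := fun c => by
          change eval₂ τ b (algebraMap ℂ Ω0[X] c) = _
          have h1 : algebraMap ℂ Ω0[X] c = C (algebraMap ℂ Ω0 c) := rfl
          have h2 : algebraMap ℂ Ω0 c = algebraMap F Ω0 (algebraMap ℂ F c) := by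
            have h3 : algebraMap F Ω0 (algebraMap ℂ F c) = algebraMap L Ω0 (algebraMap ℂ L c) := rfl
            rw [h3, ← IsScalarTower.algebraMap_apply]
          rw [h1, eval₂_C, hmap, h2, hτ] }, fun _ => rfl⟩
  obtain ⟨j', hj'⟩ : ∃ j' : K0 →ₐ[ℂ] Ω, ∀ z, j' z = algebraMap Ω0 Ω (j z) :=
    ⟨{ (algebraMap Ω0 Ω).comp (j : K0 →+* Ω0) with
        commutes' := fun c => by
          change algebraMap Ω0 Ω (j (algebraMap ℂ K0 c)) = _
          rw [hmap, IsScalarTower.algebraMap_apply ℂ L K0, AlgHom.commutes,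
            ← IsScalarTower.algebraMap_apply ℂ L Ω0] }, fun _ => rfl⟩
  have h1 : MvPolynomial.aeval (fun i => algebraMap Ω0 Ω (j (u i))) G = 0 := by
    have h2 := MvPolynomial.comp_aeval_apply (φ := j') u G
    rw [hGu, map_zero] at h2
    simp only [hj'] at h2
    exact h2.symm
  have ha : a ≠ 0 := by
    intro h0
    have h2 := h i0
    rw [hi0, map_one, map_one, h0, zero_mul] at h2
    exact one_ne_zero h2
  have h2 : (fun i => algebraMap Ω0 Ω (j (u i))) =
      fun i => a * ∑ k : Fin (s + 1), b ^ (k : ℕ) * τ (w k i) := funext h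
  rw [h2, Pool.Agent.Y988.NT.aeval_smul_form hG] at h1
  have h3 := (mul_eq_zero.1 h1).resolve_left (pow_ne_zero _ ha)
  have h4 := MvPolynomial.comp_aeval_apply (φ := φ) (crv w) G
  simp only [hφ, eval₂_crv] at h4
  rw [h3] at h4
  have h5 : b ∈ τ.range := (IsAlgClosed.splits (MvPolynomial.aeval (crv w) G)).mem_range_of_isRoot
    hGw (i := τ) (by rw [IsRoot, eval_map]; exact h4)
  obtain ⟨b0, hb0⟩ := h5
  refine alg_of_eq F hfree j hi0 (v := fun i => ∑ k : Fin (s + 1), b0 ^ (k : ℕ) * w k i) (a := a)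
    (fun i => ?_) i
  rw [h i, map_sum]
  congr 1
  refine Finset.sum_congr rfl fun k _ => ?_
  rw [map_mul, map_pow, hb0]

end

section

variable {L K0 Ω0 : Type} [Field L] [Field K0] [Field Ω0] [Algebra ℂ L] [Algebra ℂ K0]
  [Algebra ℂ Ω0] [Algebra L K0] [Algebra L Ω0] [IsScalarTower ℂ L K0] [IsScalarTower ℂ L Ω0]
  [FiniteDimensional L K0] [IsAlgClosed Ω0] {n N m s e d : ℕ} {u : Fin N → K0}

/-- **The number of the points of a fibre.** -/
theorem card_lt {i0 : Fin N} (hi0 : u i0 = 1)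
    (hgen : IntermediateField.adjoin L (Set.range u) = ⊤)
    {y : Fin n → L} {E : Fin n → Derivation ℂ L L}
    (hE : ∀ i j, E i (y j) = if i = j then 1 else 0) {h : K0} (hh : h ≠ 0)
    (hT : ∀ f : Fin m → Fin N, Rg y 1 (Algebra.trace L K0 ((∏ k, u (f k)) * h)))
    (hu : (n : Cardinal) ≤ Algebra.trdeg ℂ (IntermediateField.adjoin ℂ (Set.range u)))
    (hkod : ¬ KodGe ℂ L n (fun _ => False) n) (hs : 1 ≤ s) (he : e = if s = 1 then 1 else 2)
    {w : Fin (s + 1) → Fin N → Ω0} (hw : LinearIndependent Ω0 w)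
    (hpt : ∀ j : K0 →ₐ[L] Ω0, ∃ a b : Ω0, ∀ i,
      j (u i) = a * ∑ k : Fin (s + 1), b ^ (k : ℕ) * w k i)
    {G : MvPolynomial (Fin N) ℂ} (hG : G.IsHomogeneous d) (hGu : MvPolynomial.aeval u G = 0)
    (hGw : MvPolynomial.aeval (crv w) G ≠ 0) :
    s * m + 1 - e * s < Module.finrank L K0 := by
  classical
  have hcL : CharZero L := charZero_of_injective_algebraMap (algebraMap ℂ L).injective
  choose a b hab using hpt
  have hcard : Fintype.card (K0 →ₐ[L] Ω0) = Module.finrank L K0 := AlgHom.card L K0 Ω0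
  have hpos : 0 < Module.finrank L K0 := Module.finrank_pos
  have hne : Nonempty (K0 →ₐ[L] Ω0) := Fintype.card_pos_iff.1 (by omega)
  have h1 : ∀ j : K0 →ₐ[L] Ω0, 1 = a j * ∑ k : Fin (s + 1), b j ^ (k : ℕ) * w k i0 := by
    intro j
    rw [← hab, hi0, map_one]
  have ha : ∀ j, a j ≠ 0 := by
    intro j h0
    have h2 := h1 j
    rw [h0, zero_mul] at h2
    exact one_ne_zero h2
  have hinj : Function.Injective b := by
    intro j j' hjj
    have h2 := h1 j
    have h3 := h1 j'
    rw [← hjj] at h3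
    have h4 : (∑ k : Fin (s + 1), b j ^ (k : ℕ) * w k i0) ≠ 0 := by
      intro h0
      rw [h0, mul_zero] at h2
      exact one_ne_zero h2
    have h5 : a j = a j' := mul_right_cancel₀ h4 (h2.symm.trans h3)
    refine Pool.Agent.Helper37K9.SU.hom_ext_of hgen ?_
    rintro _ ⟨i, rfl⟩
    have h6 := hab j i
    have h7 := hab j' i
    rw [← hjj, ← h5] at h7
    rw [h6, h7]
  by_cases hall : ∀ f : Fin m → Fin N, Algebra.trace L K0 ((∏ k, u (f k)) * h) = 0
  · obtain ⟨c, hc, hrel⟩ := exists_rel1 (L := L) (Ω0 := Ω0) (u := u) hh hall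
    let D : Rnc Ω0 (fun (j : K0 →ₐ[L] Ω0) i => j (u i)) s :=
      { w := w, ind := hw, t := b, c := a, c_ne := ha, t_inj := hinj, eq := hab }
    by_contra hcon
    exact not_sep hc hrel (D.sep m _ (by
      rw [Finset.card_univ, hcard]
      omega))
  · push Not at hall
    obtain ⟨f0, hf0⟩ := hall
    have hnalg : ¬ ∀ i, IsAlgebraic (Nf y) (u i) := fun halg =>
      hkod (kod_of_alg hE hf0 (hT f0) hu halg)
    obtain ⟨Ω, iΩ, iA, τ, hτ, hfree⟩ := Pool.Agent.Helper11K9.MT.exists_tau (Nf y) Ω0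
    obtain ⟨c, c', hc, hc', hrel⟩ := exists_rel2 (L := L) (Ω0 := Ω0) (Ω := Ω) (u := u) hh (Nf y)
      (fun f f' hf' => mem_Nf.2 ⟨1, _, _, hT f, hT f', hf', rfl⟩) τ hτ f0 hf0
    have hinfΩ : Infinite Ω :=
      Infinite.of_injective _ (((algebraMap Ω0 Ω).comp (algebraMap ℂ Ω0)).injective)
    have hwτ : LinearIndependent Ω fun k i => τ (w k i) := ind_ext τ hw
    have hwι : LinearIndependent Ω fun k i => algebraMap Ω0 Ω (w k i) := ind_ext _ hw
    obtain ⟨Q, hQ1, hQ2, hQ3⟩ := exists_form_all (J := K0 →ₐ[L] Ω0) hs he hwτ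
      (v := fun j i => algebraMap Ω0 Ω (j (u i)))
      (fun (j : K0 →ₐ[L] Ω0) ⟨a', b', hj⟩ =>
        hnalg (alg_of_curve (Nf y) hτ hfree j hi0 hG hGu hGw hj))
      (fun (j : K0 →ₐ[L] Ω0) ⟨a', hj⟩ => hnalg (alg_of_eq (Nf y) hfree j hi0 hj))
    by_cases hem : e ≤ m
    · by_contra hcon
      let D : Rnc Ω (fun (j : K0 →ₐ[L] Ω0) i => algebraMap Ω0 Ω (j (u i))) s :=
        { w := fun k i => algebraMap Ω0 Ω (w k i)
          ind := hwι
          t := fun j => algebraMap Ω0 Ω (b j)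
          c := fun j => algebraMap Ω0 Ω (a j)
          c_ne := fun j => (_root_.map_ne_zero _).2 (ha j)
          t_inj := (algebraMap Ω0 Ω).injective.comp hinj
          eq := fun j i => by
            rw [hab j i, map_mul, map_sum]
            congr 1
            exact Finset.sum_congr rfl fun k _ => by rw [map_mul, map_pow] }
      refine not_sep (J := K0 →ₐ[L] Ω0) (m := m - e)
        (c := fun j => c j * MvPolynomial.eval (fun i => algebraMap Ω0 Ω (j (u i))) Q)
        (z := fun (j : K0 →ₐ[L] Ω0) i => algebraMap Ω0 Ω (j (u i)))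
        (fun j => mul_ne_zero (hc j) (hQ3 j)) (fun P hP => ?_) (D.sep (m - e) _ ?_)
      · have h2 := hrel (Q * P) (by
          have h3 := hQ1.mul hP
          rwa [Nat.add_sub_cancel' hem] at h3)
        have h3 : ∑ j : K0 →ₐ[L] Ω0, c' j * MvPolynomial.eval (fun i => τ (j (u i))) (Q * P) = 0 := by
          refine Finset.sum_eq_zero fun j _ => ?_
          have h4 : (fun i => τ (j (u i))) =
              fun i => τ (a j) * ∑ k : Fin (s + 1), τ (b j) ^ (k : ℕ) * τ (w k i) := by
            funext i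
            rw [hab j i, map_mul, map_sum]
            congr 1
            exact Finset.sum_congr rfl fun k _ => by rw [map_mul, map_pow]
          rw [map_mul, h4, hQ2, zero_mul, mul_zero]
        rw [h3, add_zero] at h2
        rw [← h2]
        refine Finset.sum_congr rfl fun j _ => ?_
        rw [map_mul]
        ring
      · rw [Finset.card_univ, hcard]
        have h3 : s * (m - e) + 1 = s * m + 1 - e * s := by
          obtain ⟨q, rfl⟩ := Nat.exists_eq_add_of_le hem
          rw [Nat.add_sub_cancel_left, Nat.mul_add, mul_comm s e]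
          omega
        omega
    · have h3 : s * m + 1 - e * s = 0 := by
        have h4 : m + 1 ≤ e := by omega
        have h5 : s * (m + 1) ≤ s * e := Nat.mul_le_mul_left s h4
        have h6 : s * (m + 1) = s * m + s := by ring
        have h7 : s * e = e * s := mul_comm s e
        omega
      omega

end

end Pool.Agent.Helper37K9.DT
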