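import Pool.Agent.Helper37K9.DT.Big
import Pool.Agent.Helper37K9.SU.Tw4

/-!
Images which are not of general type: the structure theorem.
-/

set_option autoImplicit false
set_option linter.overlappingInstances false
set_option linter.unusedSectionVars false

open FF Polynomial Pool.Agent.W602.GT Pool.Agent.W603.LV Pool.Agent.Y184.NT Pool.Agent.Helper37K9.RN
open Pool.Agent.Helper11K9.PR Pool.Agent.Helper37K9.SU

namespace Pool.Agent.Helper37K9.DT

section

variable {L K : Type} [Field L] [Field K] [Algebra ℂ L] [Algebra ℂ K] [Algebra L K]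
  [IsScalarTower ℂ L K] [FiniteDimensional L K] [hessK : Algebra.EssFiniteType ℂ K]
  {n N m s e : ℕ}

/-- a birational image is of general type -/
theorem two_le (hK : Algebra.trdeg ℂ K = n) {x : Fin N → K} {i0 : Fin N} (hi0 : x i0 = 1)
    (hgen : IntermediateField.adjoin ℂ (Set.range x) = ⊤)
    {ω : (Fin n → Derivation ℂ K K) → K} (hω : IsPluri 1 ω) (hω0 : ∃ D, ω D ≠ 0)
    (hreg : ∀ (f : Fin m → Fin N) (P : Place ℂ K), Divisorial n P →
      RegAt P (fun D => (∏ k, x (f k)) * ω D))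
    (hkod : ¬ KodGe ℂ L n (fun _ => False) n) (hm : 1 ≤ m) : 2 ≤ Module.finrank L K := by
  classical
  by_contra hcon
  have hpos : 0 < Module.finrank L K := Module.finrank_pos
  have h1 : Module.finrank L K = 1 := by omega
  have hsurj : ∀ z : K, ∃ l : L, algebraMap L K l = z := by
    intro z
    have h2 : (⊥ : IntermediateField L K) = ⊤ :=
      IntermediateField.bot_eq_top_iff_finrank_eq_one.2 h1
    have h3 : z ∈ (⊥ : IntermediateField L K) := by
      rw [h2]
      trivial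
    exact IntermediateField.mem_bot.1 h3
  have htr : ∀ z : K, algebraMap L K (Algebra.trace L K z) = z := by
    intro z
    obtain ⟨l, rfl⟩ := hsurj z
    rw [Algebra.trace_algebraMap, h1, one_smul]
  obtain ⟨y, E, h, hE, hh, hT⟩ := exists_trace (M := K) (K := K) (L := L) hK hω hω0 hreg
  obtain ⟨m', rfl⟩ : ∃ m', m = m' + 1 := ⟨m - 1, by omega⟩
  obtain ⟨T, hTd⟩ : ∃ T : (Fin (m' + 1) → Fin N) → L,
    T = fun f => Algebra.trace L K ((∏ k, algebraMap K K (x (f k))) * h) := ⟨_, rfl⟩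
  have hTK : ∀ f, algebraMap L K (T f) = (∏ k, x (f k)) * h := by
    intro f
    rw [hTd]
    exact htr _
  have hT0 : T (fun _ => i0) ≠ 0 := by
    intro h0
    have h2 := hTK fun _ => i0
    rw [h0, map_zero, Finset.prod_eq_one (fun _ _ => hi0), one_mul] at h2
    exact hh h2.symm
  refine hkod (kod_of_alg (u := x) hE hT0 (by
    have h2 := hT fun _ => i0
    rw [hTd]
    exact h2) ?_ fun i => ?_)
  · rw [hgen, ← hK]
    exact trdeg_le_of_injective (IntermediateField.topEquiv (F := ℂ) (E := K)).symm.toAlgHom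
      (IntermediateField.topEquiv (F := ℂ) (E := K)).symm.injective
  · have h2 : T (Fin.cons i fun _ => i0) / T (fun _ => i0) ∈ Nf y := by
      rw [hTd]
      exact mem_Nf.2 ⟨1, _, _, hT _, hT _, by rw [hTd] at hT0; exact hT0, rfl⟩
    have h3 : algebraMap L K (T (Fin.cons i fun _ => i0) / T (fun _ => i0)) = x i := by
      rw [map_div₀, hTK, hTK, Finset.prod_eq_one (fun _ _ => hi0), one_mul, Fin.prod_univ_succ,
        Fin.cons_zero, Finset.prod_eq_one (fun k _ => by rw [Fin.cons_succ]; exact hi0), mul_one,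
        mul_div_cancel_right₀ _ hh]
    have h4 : algebraMap (Nf y) K ⟨_, h2⟩ = x i := h3
    rw [← h4]
    exact isAlgebraic_algebraMap _

/-- some equation does not vanish on the curve -/
theorem exists_eq_ne (hNLG : StNLG) {κ : Type} [Fintype κ] [DecidableEq κ]
    {F : κ → MvPolynomial (Fin (N + 1)) ℂ} {d : κ → ℕ} (hd : ∀ k, (F k).IsHomogeneous (d k))
    (hdim : n + Fintype.card κ = N) (hK : Algebra.trdeg ℂ K = n)
    {x : Fin (N + 1) → K} {i0 : Fin (N + 1)} (hi0 : x i0 = 1)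
    (hgen : IntermediateField.adjoin ℂ (Set.range x) = ⊤)
    (hgr : LinearIndependent K fun (k : κ) (j : Fin (N + 1)) =>
      MvPolynomial.aeval x (MvPolynomial.pderiv j (F k)))
    {ω : (Fin n → Derivation ℂ K K) → K} (hω : IsPluri 1 ω) (hω0 : ∃ D, ω D ≠ 0)
    (hωr : ∀ P : Place ℂ K, Divisorial n P → RegAt P ω)
    {L' : Type} [Field L'] [Algebra ℂ L'] [Algebra L L'] [IsScalarTower ℂ L L']
    [FiniteDimensional L L'] (D : Rnc L' (pts L L' x) s)
    (hcard : Fintype.card (K →ₐ[L] L') = Module.finrank L K) (hr2 : 2 ≤ Module.finrank L K) :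
    ∃ k, MvPolynomial.aeval (crv D.w) (F k) ≠ 0 := by
  classical
  by_contra hcon
  push Not at hcon
  let θ : L' →ₐ[L] AlgebraicClosure L := IsAlgClosed.lift
  obtain ⟨j1, j2, hj⟩ : ∃ j1 j2 : K →ₐ[L] L', j1 ≠ j2 := Fintype.one_lt_card_iff.1 (by omega)
  have hpt : ∀ (j : K →ₐ[L] L'), ∃ t c : AlgebraicClosure L, c ≠ 0 ∧
      ∀ i, eval t ((crv D.w i).map (θ : L' →+* AlgebraicClosure L)) =
        c * pts L (AlgebraicClosure L) x (θ.comp j) i := by
    intro j
    refine ⟨θ (D.t j), θ (D.c j)⁻¹, (_root_.map_ne_zero θ).2 (inv_ne_zero (D.c_ne j)), fun i => ?_⟩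
    have h1 := congrArg θ (D.eval_crv j i)
    rw [map_mul] at h1
    rw [eval_map]
    exact (eval₂_at_apply (θ : L' →+* AlgebraicClosure L) (D.t j)).trans h1
  refine curve_not_in (L := L) hNLG hd hdim hK hi0 hgen hgr hω hω0 hωr
    (φ := fun i => (crv D.w i).map (θ : L' →+* AlgebraicClosure L))
    (j1 := θ.comp j1) (j2 := θ.comp j2) (fun h => hj (AlgHom.ext fun z => ?_)) (hpt j1) (hpt j2)
    fun k => ?_
  · exact θ.injective (DFunLike.congr_fun h z)
  · have hc : ∀ c : ℂ, θ (algebraMap ℂ L' c) = algebraMap ℂ (AlgebraicClosure L) c := by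
      intro c
      rw [IsScalarTower.algebraMap_apply ℂ L L', AlgHom.commutes,
        ← IsScalarTower.algebraMap_apply]
    obtain ⟨φ, hφ⟩ : ∃ φ : L'[X] →ₐ[ℂ] (AlgebraicClosure L)[X],
        ∀ p, φ p = p.map (θ : L' →+* AlgebraicClosure L) :=
      ⟨{ mapRingHom (θ : L' →+* AlgebraicClosure L) with
          commutes' := fun c => by
            change (C (algebraMap ℂ L' c)).map (θ : L' →+* AlgebraicClosure L) =
              C (algebraMap ℂ (AlgebraicClosure L) c)
            rw [Polynomial.map_C]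
            congr 1
            exact hc c }, fun _ => rfl⟩
    have h2 := MvPolynomial.comp_aeval_apply (φ := φ) (crv D.w) (F k)
    rw [hcon k, map_zero] at h2
    have h3 : (fun i => (crv D.w i).map (θ : L' →+* AlgebraicClosure L)) =
        fun i => φ (crv D.w i) := by
      funext i
      rw [hφ]
    rw [h3]
    exact h2.symm

/-- **The number of the conjugates of the points on the curve.** -/
theorem big_of_rnc (hNLG : StNLG) {κ : Type} [Fintype κ] [DecidableEq κ]
    {F : κ → MvPolynomial (Fin (N + 1)) ℂ} {d : κ → ℕ} (hd : ∀ k, (F k).IsHomogeneous (d k))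
    (hdim : n + Fintype.card κ = N) (hK : Algebra.trdeg ℂ K = n)
    {x : Fin (N + 1) → K} {i0 : Fin (N + 1)} (hi0 : x i0 = 1)
    (hgen : IntermediateField.adjoin ℂ (Set.range x) = ⊤)
    (hx : ∀ k, MvPolynomial.aeval x (F k) = 0)
    (hgr : LinearIndependent K fun (k : κ) (j : Fin (N + 1)) =>
      MvPolynomial.aeval x (MvPolynomial.pderiv j (F k)))
    {ω : (Fin n → Derivation ℂ K K) → K} (hω : IsPluri 1 ω) (hω0 : ∃ D, ω D ≠ 0)
    (hreg : ∀ (f : Fin m → Fin (N + 1)) (P : Place ℂ K), Divisorial n P →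
      RegAt P (fun D => (∏ k, x (f k)) * ω D))
    (hkod : ¬ KodGe ℂ L n (fun _ => False) n) (hs : 1 ≤ s) (he : e = if s = 1 then 1 else 2)
    (hr2 : 2 ≤ Module.finrank L K)
    {L' : Type} [Field L'] [Algebra ℂ L'] [Algebra L L'] [IsScalarTower ℂ L L']
    [FiniteDimensional L L'] (D : Rnc L' (pts L L' x) s)
    (hcard : Fintype.card (K →ₐ[L] L') = Module.finrank L K) :
    Big L L' K x D.w (s * m + 1 - e * s) := by
  have hωr : ∀ P : Place ℂ K, Divisorial n P → RegAt P ω := by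
    intro P hP
    have h1 := hreg (fun _ => i0) P hP
    simp only [hi0, Finset.prod_const_one, one_mul] at h1
    exact h1
  obtain ⟨k, hk⟩ := exists_eq_ne hNLG hd hdim hK hi0 hgen hgr hω hω0 hωr D hcard hr2
  exact big_of hK hi0 hgen hω hω0 hreg hkod hs he D.ind (hd k) (hx k) hk

/-- the degree of the map -/
theorem card_gt (hNLG : StNLG) {κ : Type} [Fintype κ] [DecidableEq κ]
    {F : κ → MvPolynomial (Fin (N + 1)) ℂ} {d : κ → ℕ} (hd : ∀ k, (F k).IsHomogeneous (d k))
    (hdim : n + Fintype.card κ = N) (hK : Algebra.trdeg ℂ K = n)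
    {x : Fin (N + 1) → K} {i0 : Fin (N + 1)} (hi0 : x i0 = 1)
    (hgen : IntermediateField.adjoin ℂ (Set.range x) = ⊤)
    (hx : ∀ k, MvPolynomial.aeval x (F k) = 0)
    (hgr : LinearIndependent K fun (k : κ) (j : Fin (N + 1)) =>
      MvPolynomial.aeval x (MvPolynomial.pderiv j (F k)))
    {ω : (Fin n → Derivation ℂ K K) → K} (hω : IsPluri 1 ω) (hω0 : ∃ D, ω D ≠ 0)
    (hreg : ∀ (f : Fin m → Fin (N + 1)) (P : Place ℂ K), Divisorial n P →
      RegAt P (fun D => (∏ k, x (f k)) * ω D))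
    (hkod : ¬ KodGe ℂ L n (fun _ => False) n) (hs : 1 ≤ s) (he : e = if s = 1 then 1 else 2)
    (hr2 : 2 ≤ Module.finrank L K)
    (D0 : Rnc (AlgebraicClosure L) (pts L (AlgebraicClosure L) x) s) :
    s * m + 1 - e * s < Module.finrank L K := by
  classical
  have hcL : CharZero L := charZero_of_injective_algebraMap (algebraMap ℂ L).injective
  have hcard : Fintype.card (K →ₐ[L] AlgebraicClosure L) = Module.finrank L K := AlgHom.card L K _
  have hωr : ∀ P : Place ℂ K, Divisorial n P → RegAt P ω := by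
    intro P hP
    have h1 := hreg (fun _ => i0) P hP
    simp only [hi0, Finset.prod_const_one, one_mul] at h1
    exact h1
  obtain ⟨k, hk⟩ : ∃ k, MvPolynomial.aeval (crv D0.w) (F k) ≠ 0 := by
    by_contra hcon
    push Not at hcon
    obtain ⟨j1, j2, hj⟩ : ∃ j1 j2 : K →ₐ[L] AlgebraicClosure L, j1 ≠ j2 :=
      Fintype.one_lt_card_iff.1 (by omega)
    exact curve_not_in (L := L) hNLG hd hdim hK hi0 hgen hgr hω hω0 hωr (φ := crv D0.w) hj
      ⟨_, _, inv_ne_zero (D0.c_ne j1), D0.eval_crv j1⟩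
      ⟨_, _, inv_ne_zero (D0.c_ne j2), D0.eval_crv j2⟩ hcon
  obtain ⟨D1, hD1⟩ := D0.move hk
  obtain ⟨L', _, _, _, _, _, _, D, hDk, hsplit, hcard'⟩ := exists_galois (gen_up hgen) D1 hD1
  obtain ⟨σ0⟩ : Nonempty (K →ₐ[L] L') := Fintype.card_pos_iff.1 (by omega)
  have h1 := big_of_rnc hNLG hd hdim hK hi0 hgen hx hgr hω hω0 hreg hkod hs he hr2 D hcard' L'
    (σ0.restrictScalars ℂ) (fun τ => by
      let g : L' →ₐ[L] L' := τ.restrictNormal L'
      have hg : ∀ l : L', algebraMap L' (AlgebraicClosure L') (g l) = τ l := fun l =>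
        τ.restrictNormal_commutes L' l
      refine ⟨algebraMap L' (AlgebraicClosure L') (D.t (g.comp σ0)),
        algebraMap L' (AlgebraicClosure L') (D.c (g.comp σ0)), fun i => ?_⟩
      have h2 : g (σ0 (x i)) = D.c (g.comp σ0) * ∑ k : Fin (s + 1),
        D.t (g.comp σ0) ^ (k : ℕ) * D.w k i := D.eq (g.comp σ0) i
      change τ (σ0 (x i)) = _
      rw [← hg, h2, map_mul, map_sum]
      congr 1
      exact Finset.sum_congr rfl fun k _ => by rw [map_mul, map_pow])
  refine h1.trans_le ?_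
  have h2 : IntermediateField.adjoin L (Set.range fun i => (σ0.restrictScalars ℂ) (x i)) =
      σ0.fieldRange := by
    have h3 := IntermediateField.adjoin_map L (Set.range x) σ0
    rw [gen_up (L := L) hgen, ← AlgHom.fieldRange_eq_map, ← Set.range_comp] at h3
    exact h3.symm
  rw [h2]
  exact (AlgEquiv.ofInjectiveField σ0).toLinearEquiv.finrank_eq.ge

/-- **The structure theorem.** -/
theorem structure_kod (hNLG : StNLG) (hW0 : StW0) (hDer : StDer)
    {κ : Type} [Fintype κ] [DecidableEq κ]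
    {F : κ → MvPolynomial (Fin (N + 1)) ℂ} {d : κ → ℕ} (hd : ∀ k, (F k).IsHomogeneous (d k))
    (hdim : n + Fintype.card κ = N) (hn : 1 ≤ n) (hK : Algebra.trdeg ℂ K = n)
    {x : Fin (N + 1) → K} {i0 : Fin (N + 1)} (hi0 : x i0 = 1)
    (hgen : IntermediateField.adjoin ℂ (Set.range x) = ⊤)
    (hx : ∀ k, MvPolynomial.aeval x (F k) = 0)
    (hgr : LinearIndependent K fun (k : κ) (j : Fin (N + 1)) =>
      MvPolynomial.aeval x (MvPolynomial.pderiv j (F k)))
    {ω : (Fin n → Derivation ℂ K K) → K} (hω : IsPluri 1 ω) (hω0 : ∃ D, ω D ≠ 0)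
    (hreg : ∀ (f : Fin m → Fin (N + 1)) (P : Place ℂ K), Divisorial n P →
      RegAt P (fun D => (∏ k, x (f k)) * ω D))
    (hkod : ¬ KodGe ℂ L n (fun _ => False) n) (hs : 1 ≤ s) (he : e = if s = 1 then 1 else 2)
    (D0 : Rnc (AlgebraicClosure L) (pts L (AlgebraicClosure L) x) s)
    {ρ : ℕ} (hρ : ρ = max (Module.finrank L K) (s * m + 2 - e * s)) (h2s : 2 * s < ρ) (k : κ)
    (hk : s * d k + e * s ≤ ρ + s * m + 1) (hoth : ∀ j, j ≠ k → s * d j < ρ) :
    ρ = Module.finrank L K ∧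
    ∃ (M : Type) (_ : Field M) (_ : Algebra ℂ M), Nonempty (L →ₐ[ℂ] M) ∧
      Algebra.trdeg ℂ M = n ∧ ∃ (H : MvPolynomial (Fin (N + 1)) ℂ) (z : Fin (N + 1) → M),
        H.IsHomogeneous 1 ∧ H ≠ 0 ∧ z i0 = 1 ∧ (∃ a, a ≠ i0 ∧ ∃ c : ℂ, z a = algebraMap ℂ M c) ∧
        IntermediateField.adjoin ℂ (Set.range z) = ⊤ ∧
        (∀ j, MvPolynomial.aeval z (Function.update F k H j) = 0) ∧
        LinearIndependent M fun (j : κ) (l : Fin (N + 1)) =>
          MvPolynomial.aeval z (MvPolynomial.pderiv l (Function.update F k H j)) := by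
  classical
  have hpos : 0 < Module.finrank L K := Module.finrank_pos
  have hωr : ∀ P : Place ℂ K, Divisorial n P → RegAt P ω := by
    intro P hP
    have h1 := hreg (fun _ => i0) P hP
    simp only [hi0, Finset.prod_const_one, one_mul] at h1
    exact h1
  have hes : s ≤ e * s := by
    have h1 : 1 ≤ e := by
      rw [he]
      split_ifs <;> omega
    exact Nat.le_mul_of_pos_left s h1
  have hr2 : 2 ≤ Module.finrank L K := by
    rcases Nat.eq_zero_or_pos m with h0 | hm
    · subst h0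
      rw [mul_zero] at hρ
      omega
    · exact two_le hK hi0 hgen hω hω0 hreg hkod hm
  have hB := card_gt hNLG hd hdim hK hi0 hgen hx hgr hω hω0 hreg hkod hs he hr2 D0
  have hρ' : ρ = Module.finrank L K := by omega
  subst hρ'
  refine ⟨rfl, structure' hNLG hW0 hDer hd hdim hn hK hi0 hgen hx hgr hω hω0 hωr hs D0 (by omega)
    hB k ?_ hoth fun L' _ _ _ _ _ _ D hcard' =>
      big_of_rnc hNLG hd hdim hK hi0 hgen hx hgr hω hω0 hreg hkod hs he hr2 D hcard'⟩
  omega

end

end Pool.Agent.Helper37K9.DT
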